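import Pool.Agent.H252.EL.Iface

/-! # EL-PTS: a dense sequence of points along chains of coordinate projections -/

set_option autoImplicit false

namespace Pool.Agent.H94.ELPTS

open Pool.Agent.H252.EL

/-- all the coordinate projections of `up y` are `y` -/
def up {m d e : ℕ} (y : Cb d) : Cb (m * d + e) :=
  Fin.addCases (fun t => y (finProdFinEquiv.symm t).2) (fun _ => 0)

theorem pj_up {m d e : ℕ} (s : Fin m) (y : Cb d) : pj (e := e) s (up y) = y := by
  funext a
  rw [pj_apply]
  unfold up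
  rw [Fin.addCases_left, Equiv.symm_apply_apply]

/-- a chain through the point `y` of stage `i` -/
noncomputable def chain (m : ℕ → ℕ) (e : ℕ → Bool → ℕ) (b : Bool) (i : ℕ) (y : Cb (dm m e i b)) :
    ∀ l : ℕ, Cb (dm m e l b)
  | 0 => if h : i = 0 then h ▸ y else fun _ => 0
  | l + 1 => if h : i = l + 1 then h ▸ y else up (chain m e b i y l)

theorem chain_self (m : ℕ → ℕ) (e : ℕ → Bool → ℕ) (b : Bool) (i : ℕ) (y : Cb (dm m e i b)) :
    chain m e b i y i = y := by
  cases i with
  | zero => simp [chain]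
  | succ i => simp [chain]

theorem chain_succ (m : ℕ → ℕ) (e : ℕ → Bool → ℕ) (b : Bool) (i : ℕ) (y : Cb (dm m e i b)) (l : ℕ)
    (h : i ≤ l) : chain m e b i y (l + 1) = up (chain m e b i y l) := by
  have h' : ¬ i = l + 1 := by omega
  rw [chain]
  exact dif_neg h'

theorem s_PTS : Pool.Agent.H252.EL.S_PTS := by
  intro m e hm
  refine ⟨fun k b => chain m e b (Nat.unpair k).1
    (TopologicalSpace.denseSeq (Cb (dm m e (Nat.unpair k).1 b)) (Nat.unpair k).2) k, ?_⟩
  intro S c i b U hU hUne
  have hd := (TopologicalSpace.denseRange_denseSeq (Cb (dm m e i b))).exists_mem_open hU hUne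
  obtain ⟨t, ht⟩ := hd
  refine ⟨Nat.pair i t, chain m e b i (TopologicalSpace.denseSeq (Cb (dm m e i b)) t),
    Nat.left_le_pair i t, ?_, ?_, ?_⟩
  · show _ = chain m e b (Nat.unpair (Nat.pair i t)).1
      (TopologicalSpace.denseSeq (Cb (dm m e (Nat.unpair (Nat.pair i t)).1 b))
        (Nat.unpair (Nat.pair i t)).2) (Nat.pair i t)
    rw [Nat.unpair_pair]
  · rw [chain_self]; exact ht
  · intro l hl _
    refine ⟨⟨0, hm l⟩, ?_⟩
    rw [chain_succ m e b i _ l hl]
    exact (pj_up _ _).symm

end Pool.Agent.H94.ELPTS
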