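import Mathlib
import Pool.Agent.H402.HD.Stm

set_option autoImplicit false

open Finset

namespace Pool.Agent.H94.HD_VAL

open Pool.Agent.H402.HD

universe u

theorem key {F : Type u} [Field F] {k : ℕ} (M : (Fin 4 → Fin k) → F)
    (e : Equiv.Perm (Fin k) → (Fin 3 → Equiv.Perm (Fin k))) (he : Function.Injective e)
    (h1 : ∀ τ, ∏ α, ((Equiv.Perm.sign (e τ α) : ℤ) : F) = 1)
    (h2 : ∀ τ (i : Fin k), M (Fin.cons i fun α => e τ α i) = 1)
    (h3 : ∀ σ : Fin 3 → Equiv.Perm (Fin k),
      (∀ i : Fin k, M (Fin.cons i fun α => σ α i) ≠ 0) → ∃ τ, e τ = σ) :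
    hdet M = (k.factorial : F) := by
  classical
  unfold hdet
  have hsub : (univ.image e) ⊆ (univ : Finset (Fin 3 → Equiv.Perm (Fin k))) := subset_univ _
  rw [← Finset.sum_subset hsub]
  · rw [Finset.sum_image (fun x _ y _ h => he h)]
    have : ∀ τ ∈ (univ : Finset (Equiv.Perm (Fin k))),
        (∏ α, ((Equiv.Perm.sign (e τ α) : ℤ) : F)) *
          ∏ i : Fin k, M (Fin.cons i fun α => e τ α i) = 1 := by
      intro τ _
      rw [h1, Finset.prod_congr rfl (fun i _ => h2 τ i), Finset.prod_const_one, one_mul]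
    rw [Finset.sum_congr rfl this, Finset.sum_const, Finset.card_univ, Fintype.card_perm,
      Fintype.card_fin, nsmul_eq_mul, mul_one]
  · intro σ _ hσ
    have h4 : ¬ ∀ i : Fin k, M (Fin.cons i fun α => σ α i) ≠ 0 := by
      intro h
      obtain ⟨τ, hτ⟩ := h3 σ h
      exact hσ (Finset.mem_image.2 ⟨τ, mem_univ _, hτ⟩)
    push Not at h4
    obtain ⟨i, hi⟩ := h4
    rw [Finset.prod_eq_zero (mem_univ i) hi, mul_zero]

theorem sign_sq {F : Type u} [Field F] {k : ℕ} (τ : Equiv.Perm (Fin k)) :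
    ((Equiv.Perm.sign τ : ℤ) : F) * ((Equiv.Perm.sign τ : ℤ) : F) = 1 := by
  rcases Int.units_eq_one_or (Equiv.Perm.sign τ) with h | h <;> simp [h]

theorem holds : S_val.{u} := by
  intro F _ k
  refine ⟨?_, ?_, ?_⟩
  · apply key _ (fun τ => ![1, τ, τ])
    · intro τ ρ h
      exact congrFun h 1
    · intro τ
      rw [Fin.prod_univ_three]
      show ((Equiv.Perm.sign (1 : Equiv.Perm (Fin k)) : ℤ) : F) *
        ((Equiv.Perm.sign τ : ℤ) : F) * ((Equiv.Perm.sign τ : ℤ) : F) = 1
      rw [mul_assoc, sign_sq]; simp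
    · intro τ i
      exact if_pos ⟨rfl, rfl⟩
    · intro σ hσ
      have h : ∀ i : Fin k, i = σ 0 i ∧ σ 1 i = σ 2 i := by
        intro i
        by_contra hne
        exact hσ i (if_neg hne)
      refine ⟨σ 1, ?_⟩
      funext α
      fin_cases α
      · show (1 : Equiv.Perm (Fin k)) = σ 0
        exact Equiv.ext fun i => (h i).1
      · rfl
      · show σ 1 = σ 2
        exact Equiv.ext fun i => (h i).2
  · apply key _ (fun τ => ![τ, 1, τ])
    · intro τ ρ h
      exact congrFun h 0
    · intro τ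
      rw [Fin.prod_univ_three]
      show ((Equiv.Perm.sign τ : ℤ) : F) * ((Equiv.Perm.sign (1 : Equiv.Perm (Fin k)) : ℤ) : F) *
        ((Equiv.Perm.sign τ : ℤ) : F) = 1
      rw [Equiv.Perm.sign_one, Units.val_one, Int.cast_one, mul_one, sign_sq]
    · intro τ i
      exact if_pos ⟨rfl, rfl⟩
    · intro σ hσ
      have h : ∀ i : Fin k, i = σ 1 i ∧ σ 0 i = σ 2 i := by
        intro i
        by_contra hne
        exact hσ i (if_neg hne)
      refine ⟨σ 0, ?_⟩
      funext α
      fin_cases α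
      · rfl
      · show (1 : Equiv.Perm (Fin k)) = σ 1
        exact Equiv.ext fun i => (h i).1
      · show σ 0 = σ 2
        exact Equiv.ext fun i => (h i).2
  · apply key _ (fun τ => ![τ, τ, 1])
    · intro τ ρ h
      exact congrFun h 0
    · intro τ
      rw [Fin.prod_univ_three]
      show ((Equiv.Perm.sign τ : ℤ) : F) * ((Equiv.Perm.sign τ : ℤ) : F) *
        ((Equiv.Perm.sign (1 : Equiv.Perm (Fin k)) : ℤ) : F) = 1
      rw [Equiv.Perm.sign_one, Units.val_one, Int.cast_one, mul_one, sign_sq]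
    · intro τ i
      exact if_pos ⟨rfl, rfl⟩
    · intro σ hσ
      have h : ∀ i : Fin k, i = σ 2 i ∧ σ 0 i = σ 1 i := by
        intro i
        by_contra hne
        exact hσ i (if_neg hne)
      refine ⟨σ 0, ?_⟩
      funext α
      fin_cases α
      · rfl
      · show σ 0 = σ 1
        exact Equiv.ext fun i => (h i).2
      · show (1 : Equiv.Perm (Fin k)) = σ 2
        exact Equiv.ext fun i => (h i).1

end Pool.Agent.H94.HD_VAL
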