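import Mathlib
import Pool.Agent.H576.RD.Stm
import Pool.Agent.H576.RD.Move

/-!
# RD B3: layered Delone sets, global structure from the local one
-/

set_option autoImplicit false

open Real

namespace Pool.Agent.H94.RDB3

open Pool.Agent.H576.RD

theorem inner_e2 (v : E) : inner ℝ v e2 = v 2 := by
  simp [e2, EuclideanSpace.inner_single_right]

theorem inner_e2' (v : E) : inner ℝ e2 v = v 2 := by
  rw [real_inner_comm, inner_e2]

theorem inner_coord (v w : E) : inner ℝ v w = v 0 * w 0 + v 1 * w 1 + v 2 * w 2 := by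
  simp [PiLp.inner_apply, Fin.sum_univ_three, mul_comm]

theorem norm_sq_coord (v : E) : ‖v‖ ^ 2 = v 0 ^ 2 + v 1 ^ 2 + v 2 ^ 2 := by
  rw [← real_inner_self_eq_norm_sq, inner_coord]; ring

theorem norm_e2 : ‖e2‖ = 1 := by
  simp [e2]

theorem li_inner (φ : LI) (v w : E) : inner ℝ (φ v) (φ w) = inner ℝ v w :=
  LinearIsometryEquiv.inner_map_map φ v w

theorem inv_coord (φ : LI) (v : E) : ((φ⁻¹ : LI) v) 2 = inner ℝ v (φ e2) := by
  rw [← inner_e2, ← li_inner φ, li_apply_inv]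

/-- Local data at the origin. -/
structure Loc (X : Set E) (s : ℝ) (D : ℝ → Prop) : Prop where
  nn : Nn X 9
  zero : (0 : E) ∈ X
  sle : s ≤ 0.2
  md : MinD X s
  even : ∀ t, D (-t) ↔ D t
  char : ∀ v ∈ X, ‖v‖ = s → ∀ u : E, ‖u‖ = s → (u ∈ X ↔ u 2 = 0 ∧ D (inner ℝ u v))
  ang : ∀ v ∈ X, ‖v‖ = s → ∃ w ∈ X, ‖w‖ = s ∧ 0 ≤ (inner ℝ v w : ℝ) ∧ inner ℝ v w ≤ s ^ 2 / 2
  ht : ∀ v ∈ X, ‖v‖ ≤ 1.8 → |v 2| ≤ ‖v‖ ^ 2 / 3.9
  rf : ∀ v ∈ X, ‖v‖ ≤ 1.8 → rrE 0 v ∈ X

theorem Mv_iff {X : Set E} {y : E} {φ : LI} (h : Eqv X 0 y 9 φ) {v : E} (hv : ‖v‖ ≤ 9) :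
    v ∈ Mv X y φ ↔ v ∈ X := by
  rw [mem_Mv]
  have := h v hv
  rw [zero_add] at this
  exact this.symm

theorem rrE_norm (v : E) : ‖rrE 0 v‖ = ‖v‖ := by
  have h : ‖rrE 0 v‖ ^ 2 = ‖v‖ ^ 2 := by
    rw [norm_sq_coord, norm_sq_coord]
    simp [rrE]
  exact (sq_eq_sq₀ (norm_nonneg _) (norm_nonneg _)).1 h

/-- Transport of local data. -/
theorem Loc.mv {X : Set E} {s : ℝ} {D : ℝ → Prop} (h : Loc X s D) {y : E} (hy : y ∈ X) {φ : LI}
    (hφ : Eqv X 0 y 9 φ) : Loc (Mv X y φ) s D := by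
  have hs := h.sle
  refine ⟨Mv_Nn h.nn, zero_mem_Mv.2 hy, h.sle, Mv_MinD h.md, h.even, ?_, ?_, ?_, ?_⟩
  · intro v hv hvs u hus
    rw [Mv_iff hφ (by rw [hvs]; linarith)] at hv
    rw [Mv_iff hφ (by rw [hus]; linarith)]
    exact h.char v hv hvs u hus
  · intro v hv hvs
    rw [Mv_iff hφ (by rw [hvs]; linarith)] at hv
    obtain ⟨w, hw, hws, hw1, hw2⟩ := h.ang v hv hvs
    exact ⟨w, (Mv_iff hφ (by rw [hws]; linarith)).2 hw, hws, hw1, hw2⟩
  · intro v hv hvs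
    rw [Mv_iff hφ (by linarith)] at hv
    exact h.ht v hv hvs
  · intro v hv hvs
    rw [Mv_iff hφ (by linarith)] at hv
    rw [Mv_iff hφ (by rw [rrE_norm]; linarith)]
    exact h.rf v hv hvs

theorem rrE_dist (v : E) : ‖rrE 0 v - v‖ = 2 * |v 2| := by
  have h : ‖rrE 0 v - v‖ ^ 2 = (2 * |v 2|) ^ 2 := by
    rw [norm_sq_coord, mul_pow, sq_abs]
    simp [rrE]
    ring
  exact (sq_eq_sq₀ (norm_nonneg _) (by positivity)).1 h

/-- Reflection principle. -/
theorem Loc.refl_flat {X : Set E} {s : ℝ} {D : ℝ → Prop} (h : Loc X s D) {v : E} (hv : v ∈ X)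
    (hv1 : ‖v‖ ≤ 1.8) (hv2 : 2 * |v 2| < s) : v 2 = 0 := by
  by_contra hne
  have h1 := h.rf v hv hv1
  have hne' : v ≠ rrE 0 v := by
    intro he
    have : v 2 = (rrE 0 v) 2 := by rw [← he]
    simp [rrE] at this
    apply hne; linarith
  have h2 := h.md.le v hv _ h1 hne'
  rw [rrE_dist] at h2
  linarith

theorem Loc.flat {X : Set E} {s : ℝ} {D : ℝ → Prop} (h : Loc X s D) {v : E} (hv : v ∈ X)
    (hv1 : ‖v‖ ^ 2 ≤ 2 * s ^ 2) : v 2 = 0 := by
  have hs := h.sle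
  have hp := h.md.pos
  have h1 : ‖v‖ ≤ 1.8 := by
    nlinarith [norm_nonneg v]
  apply h.refl_flat hv h1
  have h2 := h.ht v hv h1
  have h3 : |v 2| * 3.9 ≤ 2 * s ^ 2 := by
    rw [le_div_iff₀ (by norm_num)] at h2
    linarith
  nlinarith

/-- Two independent horizontal vectors orthogonal to `b`. -/
theorem horiz {v w b : E} (hv : v 2 = 0) (hw : w 2 = 0) (h1 : inner ℝ v b = (0 : ℝ))
    (h2 : inner ℝ w b = (0 : ℝ)) {s : ℝ} (hs : 0 < s) (hvs : ‖v‖ = s) (hws : ‖w‖ = s)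
    (h3 : 0 ≤ (inner ℝ v w : ℝ)) (h4 : inner ℝ v w ≤ s ^ 2 / 2) : b 0 = 0 ∧ b 1 = 0 := by
  have n1 := norm_sq_coord v
  have n2 := norm_sq_coord w
  rw [hvs, hv] at n1
  rw [hws, hw] at n2
  rw [inner_coord, hv] at h1
  rw [inner_coord, hw] at h2
  rw [inner_coord, hv, hw] at h3 h4
  have hdet : (v 0 * w 1 - v 1 * w 0) ^ 2 = s ^ 4 - (v 0 * w 0 + v 1 * w 1) ^ 2 := by
    have : s ^ 4 = (v 0 ^ 2 + v 1 ^ 2) * (w 0 ^ 2 + w 1 ^ 2) := by
      have e : s ^ 4 = s ^ 2 * s ^ 2 := by ring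
      rw [e]
      nth_rw 1 [n1]
      rw [n2]; ring
    rw [this]; ring
  have hpos : 0 < (v 0 * w 1 - v 1 * w 0) ^ 2 := by
    rw [hdet]
    have h5 : 0 < s ^ 2 := by positivity
    have h6 : s ^ 4 = (s ^ 2) ^ 2 := by ring
    nlinarith
  have hne : v 0 * w 1 - v 1 * w 0 ≠ 0 := by
    intro he
    rw [he] at hpos
    norm_num at hpos
  constructor
  · have : (v 0 * w 1 - v 1 * w 0) * b 0 = 0 := by linear_combination w 1 * h1 - v 1 * h2
    exact (mul_eq_zero.1 this).resolve_left hne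
  · have : (v 0 * w 1 - v 1 * w 0) * b 1 = 0 := by linear_combination v 0 * h2 - w 0 * h1
    exact (mul_eq_zero.1 this).resolve_left hne

/-- Flatness at another point. -/
theorem Loc.flat_at {X : Set E} {s : ℝ} {D : ℝ → Prop} (h : Loc X s D) {y : E} {ψ : LI}
    (hψ : Eqv X 0 y 9 ψ) {v : E} (hv : y + v ∈ X)
    (hv1 : ‖v‖ ^ 2 ≤ 2 * s ^ 2) : inner ℝ v (ψ e2) = (0 : ℝ) := by
  have hs := h.sle
  have hp := h.md.pos
  have h0 : ‖(ψ⁻¹ : LI) v‖ = ‖v‖ := LinearIsometryEquiv.norm_map _ _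
  have h1 : ‖v‖ ≤ 1.8 := by
    nlinarith [norm_nonneg v]
  have h2 : (ψ⁻¹ : LI) v ∈ X := by
    have := hψ ((ψ⁻¹ : LI) v) (by rw [h0]; linarith)
    rw [li_apply_inv, zero_add] at this
    exact this.2 hv
  rw [← inv_coord]
  exact h.flat h2 (by rw [h0]; exact hv1)

/-- Neighbours of the origin have the same neighbour vectors. -/
theorem Loc.same0 {X : Set E} {s : ℝ} {D : ℝ → Prop} (h : Loc X s D) {v : E} (hv : v ∈ X)
    (hvs : ‖v‖ = s) : ∀ u : E, ‖u‖ = s → (v + u ∈ X ↔ u ∈ X) := by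
  intro u hus
  have hs := h.sle
  have hp := h.md.pos
  obtain ⟨ψ, hψ⟩ := h.nn 0 h.zero v hv
  obtain ⟨w, hw, hws, hw1, hw2⟩ := h.ang v hv hvs
  have hv2 : v 2 = 0 := h.flat hv (by rw [hvs]; nlinarith)
  have hw2' : w 2 = 0 := h.flat hw (by rw [hws]; nlinarith)
  have e1 : inner ℝ (-v) (ψ e2) = (0 : ℝ) :=
    h.flat_at hψ (by rw [add_neg_cancel]; exact h.zero) (by rw [norm_neg, hvs]; nlinarith)
  have e1' : inner ℝ v (ψ e2) = (0 : ℝ) := by
    rw [inner_neg_left] at e1; linarith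
  have e2' : inner ℝ (w - v) (ψ e2) = (0 : ℝ) := by
    refine h.flat_at hψ (by rw [add_sub_cancel]; exact hw) ?_
    rw [norm_sub_sq_real, hws, hvs, real_inner_comm]
    linarith
  have e3 : inner ℝ w (ψ e2) = (0 : ℝ) := by
    rw [inner_sub_left] at e2'; linarith
  obtain ⟨b0, b1⟩ := horiz hv2 hw2' e1' e3 hp hvs hws hw1 hw2
  have hb : (ψ e2) 2 ≠ 0 := by
    intro hb2
    have := norm_sq_coord (ψ e2)
    rw [b0, b1, hb2, LinearIsometryEquiv.norm_map, norm_e2] at this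
    norm_num at this
  have nu : ‖(ψ⁻¹ : LI) u‖ = s := by rw [LinearIsometryEquiv.norm_map, hus]
  have nv : ‖(ψ⁻¹ : LI) (-v)‖ = s := by rw [LinearIsometryEquiv.norm_map, norm_neg, hvs]
  have k1 : v + u ∈ X ↔ (ψ⁻¹ : LI) u ∈ X := by
    have := hψ ((ψ⁻¹ : LI) u) (by rw [nu]; linarith)
    rw [li_apply_inv, zero_add] at this
    exact this.symm
  have k2 : (ψ⁻¹ : LI) (-v) ∈ X := by
    have := hψ ((ψ⁻¹ : LI) (-v)) (by rw [nv]; linarith)
    rw [li_apply_inv, zero_add, add_neg_cancel] at this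
    exact this.2 h.zero
  rw [k1, h.char _ k2 nv _ nu, h.char v hv hvs u hus, inv_coord, li_inner, inner_neg_right, h.even]
  have k3 : (inner ℝ u (ψ e2) : ℝ) = 0 ↔ u 2 = 0 := by
    rw [inner_coord, b0, b1]
    constructor
    · intro he
      have : u 2 * (ψ e2) 2 = 0 := by linarith
      exact (mul_eq_zero.1 this).resolve_right hb
    · intro he; rw [he]; ring
  rw [k3]

/-- Neighbours have the same neighbour vectors. -/
theorem Loc.same1 {X : Set E} {s : ℝ} {D : ℝ → Prop} (h : Loc X s D) {y v : E} (hy : y ∈ X)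
    (hv : y + v ∈ X) (hvs : ‖v‖ = s) : ∀ u : E, ‖u‖ = s → (y + v + u ∈ X ↔ y + u ∈ X) := by
  intro u hus
  obtain ⟨φ, hφ⟩ := h.nn 0 h.zero y hy
  have h' := h.mv hy hφ
  have nu : ‖(φ⁻¹ : LI) u‖ = s := by rw [LinearIsometryEquiv.norm_map, hus]
  have nv : ‖(φ⁻¹ : LI) v‖ = s := by rw [LinearIsometryEquiv.norm_map, hvs]
  have hv' : (φ⁻¹ : LI) v ∈ Mv X y φ := by rw [mem_Mv, li_apply_inv]; exact hv
  have k := h'.same0 hv' nv ((φ⁻¹ : LI) u) nu
  rw [mem_Mv, mem_Mv, map_add, li_apply_inv, li_apply_inv, ← add_assoc] at k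
  exact k

/-- `y` is in `X` and has the same neighbour vectors as `x`. -/
def Q (X : Set E) (s : ℝ) (x y : E) : Prop := y ∈ X ∧ ∀ w : E, ‖w‖ = s → (y + w ∈ X ↔ x + w ∈ X)

theorem Loc.lamQ {X : Set E} {s : ℝ} {D : ℝ → Prop} (h : Loc X s D) {x : E} (hx : x ∈ X) {v : E}
    (hv : v ∈ Lam X s x) : ∀ y : E, Q X s x y ↔ Q X s x (y + v) := by
  unfold Lam at hv
  induction hv using AddSubgroup.closure_induction with
  | mem v hv =>
    obtain ⟨hvs, hxv⟩ := hv
    have hneg : x + -v ∈ X := by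
      have := h.same1 hx hxv hvs (-v) (by rw [norm_neg, hvs])
      rw [← this, add_neg_cancel_right]; exact hx
    intro y
    constructor
    · rintro ⟨hy, hyw⟩
      have hyv : y + v ∈ X := (hyw v hvs).2 hxv
      refine ⟨hyv, fun w hw => ?_⟩
      rw [h.same1 hy hyv hvs w hw]
      exact hyw w hw
    · rintro ⟨hy, hyw⟩
      have hns : ‖-v‖ = s := by rw [norm_neg, hvs]
      have hyv : y + v + -v ∈ X := (hyw (-v) hns).2 hneg
      have hyX : y ∈ X := by rwa [add_neg_cancel_right] at hyv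
      refine ⟨hyX, fun w hw => ?_⟩
      have k := h.same1 hy hyv hns w hw
      rw [add_neg_cancel_right] at k
      rw [k]
      exact hyw w hw
  | zero => intro y; rw [add_zero]
  | add v w _ _ ihv ihw =>
    intro y
    rw [ihv y, ihw (y + v), add_assoc]
  | neg v _ ih =>
    intro y
    rw [ih (y + -v), neg_add_cancel_right]

theorem Q_self {X : Set E} {s : ℝ} {x : E} (hx : x ∈ X) : Q X s x x := ⟨hx, fun _ _ => Iff.rfl⟩

theorem Loc.lamQ' {X : Set E} {s : ℝ} {D : ℝ → Prop} (h : Loc X s D) {x : E} (hx : x ∈ X) {v : E}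
    (hv : v ∈ Lam X s x) : Q X s x (x + v) := (h.lamQ hx hv x).1 (Q_self hx)

theorem Loc.lam0 {X : Set E} {s : ℝ} {D : ℝ → Prop} (h : Loc X s D) {v : E}
    (hv : v ∈ Lam X s 0) : v 2 = 0 := by
  unfold Lam at hv
  induction hv using AddSubgroup.closure_induction with
  | mem v hv =>
    obtain ⟨hvs, hxv⟩ := hv
    rw [zero_add] at hxv
    exact h.flat hxv (by rw [hvs]; nlinarith [h.md.pos])
  | zero => rfl
  | add v w _ _ ihv ihw => rw [PiLp.add_apply, ihv, ihw, add_zero]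
  | neg v _ ih => rw [PiLp.neg_apply, ih, neg_zero]

/-- If `y` has the same neighbour vectors as `0`, its axis is vertical. -/
theorem Loc.axis {X : Set E} {s : ℝ} {D : ℝ → Prop} (h : Loc X s D) {y : E}
    (hy : Q X s 0 y) {ψ : LI} (hψ : Eqv X 0 y 9 ψ) : (ψ e2) 0 = 0 ∧ (ψ e2) 1 = 0 := by
  have hp := h.md.pos
  obtain ⟨v, hv, hvs⟩ := h.md.att 0 h.zero
  rw [sub_zero] at hvs
  obtain ⟨w, hw, hws, hw1, hw2⟩ := h.ang v hv hvs
  have hv2 : v 2 = 0 := h.flat hv (by rw [hvs]; nlinarith)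
  have hw2' : w 2 = 0 := h.flat hw (by rw [hws]; nlinarith)
  have a1 : y + v ∈ X := (hy.2 v hvs).2 (by rw [zero_add]; exact hv)
  have a2 : y + w ∈ X := (hy.2 w hws).2 (by rw [zero_add]; exact hw)
  have e1 := h.flat_at hψ a1 (by rw [hvs]; nlinarith)
  have e2' := h.flat_at hψ a2 (by rw [hws]; nlinarith)
  exact horiz hv2 hw2' e1 e2' hp hvs hws hw1 hw2

theorem mem_lam0 {X : Set E} {s : ℝ} {v : E} (hv : v ∈ X) (hvs : ‖v‖ = s) : v ∈ Lam X s 0 :=
  AddSubgroup.subset_closure ⟨hvs, by rw [zero_add]; exact hv⟩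

theorem rnd_bound {δ ε s c : ℝ} (hδ : |δ| ≤ 1 / 2) (hε : |ε| ≤ 1 / 2) (hc0 : 0 ≤ c)
    (hc : c ≤ s ^ 2 / 2) : (δ ^ 2 + ε ^ 2) * s ^ 2 + 2 * δ * ε * c ≤ (0.87 * s) ^ 2 := by
  have d2 : δ ^ 2 ≤ 1 / 4 := by
    rw [← sq_abs]; nlinarith [abs_nonneg δ]
  have e2' : ε ^ 2 ≤ 1 / 4 := by
    rw [← sq_abs]; nlinarith [abs_nonneg ε]
  have de : δ * ε ≤ 1 / 4 := by nlinarith [sq_nonneg (δ - ε)]
  have h7 : 0 ≤ s ^ 2 := by positivity
  have h8 : δ * ε * c ≤ 1 / 4 * c := mul_le_mul_of_nonneg_right de hc0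
  have h9 : (δ ^ 2 + ε ^ 2) * s ^ 2 ≤ (1 / 2) * s ^ 2 :=
    mul_le_mul_of_nonneg_right (by linarith) h7
  have h10 : (0.87 * s) ^ 2 = 0.7569 * s ^ 2 := by ring
  rw [h10]
  linarith

/-- Density at the origin. -/
theorem Loc.dense0 {X : Set E} {s : ℝ} {D : ℝ → Prop} (h : Loc X s D) (w : E) (hw : w 2 = 0) :
    ∃ v ∈ Lam X s 0, ‖w - v‖ ≤ 0.87 * s := by
  have hp := h.md.pos
  obtain ⟨p, hp', hps⟩ := h.md.att 0 h.zero
  rw [sub_zero] at hps
  obtain ⟨q, hq, hqs, hq1, hq2⟩ := h.ang p hp' hps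
  have hp2 : p 2 = 0 := h.flat hp' (by rw [hps]; nlinarith)
  have hq2' : q 2 = 0 := h.flat hq (by rw [hqs]; nlinarith)
  have n1 := norm_sq_coord p
  have n2 := norm_sq_coord q
  rw [hps, hp2] at n1
  rw [hqs, hq2'] at n2
  have i1 := inner_coord p q
  rw [hp2, hq2'] at i1
  set c : ℝ := inner ℝ p q with hc
  have hdet : (p 0 * q 1 - p 1 * q 0) ^ 2 = s ^ 4 - c ^ 2 := by
    have : s ^ 4 = (p 0 ^ 2 + p 1 ^ 2) * (q 0 ^ 2 + q 1 ^ 2) := by
      have e : s ^ 4 = s ^ 2 * s ^ 2 := by ring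
      rw [e]
      nth_rw 1 [n1]
      rw [n2]; ring
    rw [this, i1]; ring
  have hpos : 0 < (p 0 * q 1 - p 1 * q 0) ^ 2 := by
    rw [hdet]
    have h5 : 0 < s ^ 2 := by positivity
    have h6 : s ^ 4 = (s ^ 2) ^ 2 := by ring
    nlinarith
  have hne : p 0 * q 1 - p 1 * q 0 ≠ 0 := by
    intro he
    rw [he] at hpos
    norm_num at hpos
  set Δ := p 0 * q 1 - p 1 * q 0 with hΔ
  set α := (w 0 * q 1 - w 1 * q 0) / Δ with hα
  set β := (p 0 * w 1 - p 1 * w 0) / Δ with hβ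
  have hα' : α * Δ = w 0 * q 1 - w 1 * q 0 := div_mul_cancel₀ _ hne
  have hβ' : β * Δ = p 0 * w 1 - p 1 * w 0 := div_mul_cancel₀ _ hne
  have w0 : w 0 = α * p 0 + β * q 0 := by
    apply mul_left_cancel₀ hne
    linear_combination (-p 0) * hα' - q 0 * hβ' + (0 : ℝ) * hΔ
  have w1 : w 1 = α * p 1 + β * q 1 := by
    apply mul_left_cancel₀ hne
    linear_combination (-p 1) * hα' - q 1 * hβ' + (0 : ℝ) * hΔ
  refine ⟨(round α : ℤ) • p + (round β : ℤ) • q, ?_, ?_⟩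
  · exact AddSubgroup.add_mem _ (AddSubgroup.zsmul_mem _ (mem_lam0 hp' hps) _)
      (AddSubgroup.zsmul_mem _ (mem_lam0 hq hqs) _)
  · set δ := α - round α with hδ
    set ε := β - round β with hε
    have key : ‖w - ((round α : ℤ) • p + (round β : ℤ) • q)‖ ^ 2
        = (δ ^ 2 + ε ^ 2) * s ^ 2 + 2 * δ * ε * c := by
      rw [norm_sq_coord]
      simp only [PiLp.sub_apply, PiLp.add_apply, PiLp.smul_apply, zsmul_eq_mul]
      rw [hw, hp2, hq2', w0, w1, i1]
      have m1 : (δ ^ 2 + ε ^ 2) * s ^ 2 = δ ^ 2 * (p 0 ^ 2 + p 1 ^ 2 + 0 ^ 2)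
          + ε ^ 2 * (q 0 ^ 2 + q 1 ^ 2 + 0 ^ 2) := by
        rw [← n1, ← n2]; ring
      rw [m1, hδ, hε]; ring
    have bound : ‖w - ((round α : ℤ) • p + (round β : ℤ) • q)‖ ^ 2 ≤ (0.87 * s) ^ 2 := by
      rw [key]
      exact rnd_bound (abs_sub_round α) (abs_sub_round β) hq1 hq2
    exact (sq_le_sq₀ (norm_nonneg _) (by positivity)).1 bound

/-- Slab property at the origin. -/
theorem Loc.slab0 {X : Set E} {s : ℝ} {D : ℝ → Prop} (h : Loc X s D) {z : E} (hz : z ∈ X)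
    (hz2 : |z 2| < 1.7) : z ∈ Lam X s 0 := by
  have hp := h.md.pos
  have hs := h.sle
  obtain ⟨v, hv, hvd⟩ := h.dense0 (z - (z 2) • e2) (by simp [e2])
  have hv2 := h.lam0 hv
  have hQ : Q X s 0 v := by
    have := h.lamQ' h.zero hv
    rwa [zero_add] at this
  obtain ⟨ψ, hψ⟩ := h.nn 0 h.zero v hQ.1
  obtain ⟨b0, b1⟩ := h.axis hQ hψ
  have hb : (ψ e2) 2 ^ 2 = 1 := by
    have := norm_sq_coord (ψ e2)
    rw [b0, b1, LinearIsometryEquiv.norm_map, norm_e2] at this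
    linarith
  have habs : |(ψ e2) 2| = 1 := by
    have : |(ψ e2) 2| ^ 2 = 1 := by rw [sq_abs]; exact hb
    nlinarith [abs_nonneg ((ψ e2) 2)]
  set ζ := ‖z - (z 2) • e2 - v‖ with hζ
  have hζ0 : 0 ≤ ζ := norm_nonneg _
  have hn : ‖z - v‖ ^ 2 = ζ ^ 2 + (z 2) ^ 2 := by
    rw [hζ, norm_sq_coord, norm_sq_coord]
    simp [e2, hv2]
  have hz2' : (z 2) ^ 2 < 1.7 ^ 2 := by
    rw [← sq_abs]
    exact pow_lt_pow_left₀ hz2 (abs_nonneg _) (by norm_num)
  have hζ' : ζ ≤ 0.174 := by linarith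
  have hnle : ‖z - v‖ ≤ 1.8 := by
    have : ‖z - v‖ ^ 2 ≤ 1.8 ^ 2 := by nlinarith
    exact (sq_le_sq₀ (norm_nonneg _) (by norm_num)).1 this
  have ny : ‖(ψ⁻¹ : LI) (z - v)‖ = ‖z - v‖ := LinearIsometryEquiv.norm_map _ _
  have hy : (ψ⁻¹ : LI) (z - v) ∈ X := by
    have := hψ ((ψ⁻¹ : LI) (z - v)) (by rw [ny]; linarith)
    rw [li_apply_inv, zero_add, add_sub_cancel] at this
    exact this.2 hz
  have hy2 : |((ψ⁻¹ : LI) (z - v)) 2| = |z 2| := by
    rw [inv_coord, inner_coord, b0, b1, PiLp.sub_apply, PiLp.sub_apply, PiLp.sub_apply, hv2,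
      mul_zero, mul_zero, zero_add, zero_add, sub_zero, abs_mul, habs, mul_one]
  have k1 := h.ht _ hy (by rw [ny]; exact hnle)
  rw [hy2, ny, hn, le_div_iff₀ (by norm_num)] at k1
  have k2 : 2 * |z 2| < s := by
    have a0 := abs_nonneg (z 2)
    have a1 : (z 2) ^ 2 = |z 2| ^ 2 := (sq_abs _).symm
    rw [a1] at k1
    have a4 : |z 2| * |z 2| ≤ 1.7 * |z 2| := mul_le_mul_of_nonneg_right hz2.le a0
    have a2 : |z 2| * 2.2 ≤ ζ ^ 2 := by linarith
    have a3 : ζ ^ 2 ≤ (0.87 * s) ^ 2 := pow_le_pow_left₀ hζ0 hvd 2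
    have a5 : s * s ≤ 0.2 * s := mul_le_mul_of_nonneg_right hs hp.le
    linarith
  have k3 := h.refl_flat hy (by rw [ny]; exact hnle) (by rw [hy2]; exact k2)
  rw [k3, abs_zero] at hy2
  have k4 : z 2 = 0 := abs_eq_zero.1 hy2.symm
  rw [k4] at hn
  have k5 : ‖z - v‖ = ζ := by
    have : ‖z - v‖ ^ 2 = ζ ^ 2 := by rw [hn]; ring
    exact (sq_eq_sq₀ (norm_nonneg _) hζ0).1 this
  by_cases hvz : v = z
  · rw [← hvz]; exact hv
  · have := h.md.le v hQ.1 z hz hvz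
    rw [k5] at this
    exfalso
    linarith

theorem Loc.layer0 {X : Set E} {s : ℝ} {D : ℝ → Prop} (h : Loc X s D) : LayerAt X e2 s 0 where
  flat := by
    intro v hv
    refine ⟨by rw [inner_e2]; exact h.lam0 hv, (h.lamQ' h.zero hv).1⟩
  same := by
    intro v hv w hw
    exact (h.lamQ' h.zero hv).2 w hw
  slab := by
    intro z hz hz2
    rw [sub_zero] at hz2 ⊢
    rw [inner_e2] at hz2
    exact h.slab0 hz hz2
  dense := by
    intro w hw
    rw [inner_e2] at hw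
    exact h.dense0 w hw
  near := by
    intro z hz hz1
    rw [sub_zero] at hz1 ⊢
    apply h.slab0 hz
    have h1 := h.ht z hz hz1
    have h2 : ‖z‖ ^ 2 ≤ 1.8 ^ 2 := pow_le_pow_left₀ (norm_nonneg _) hz1 2
    rw [le_div_iff₀ (by norm_num)] at h1
    nlinarith

theorem lam_mv {X : Set E} {s : ℝ} {y : E} {φ : LI} {v : E} (hv : v ∈ Lam (Mv X y φ) s 0) :
    φ v ∈ Lam X s y := by
  unfold Lam at hv
  induction hv using AddSubgroup.closure_induction with
  | mem v hv =>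
    obtain ⟨hvs, hxv⟩ := hv
    rw [zero_add, mem_Mv] at hxv
    exact AddSubgroup.subset_closure ⟨by rw [LinearIsometryEquiv.norm_map, hvs], hxv⟩
  | zero => rw [map_zero]; exact AddSubgroup.zero_mem _
  | add v w _ _ ihv ihw => rw [map_add]; exact AddSubgroup.add_mem _ ihv ihw
  | neg v _ ih => rw [map_neg]; exact AddSubgroup.neg_mem _ ih

theorem lam_mv' {X : Set E} {s : ℝ} {y : E} {φ : LI} {v : E} (hv : v ∈ Lam X s y) :
    (φ⁻¹ : LI) v ∈ Lam (Mv X y φ) s 0 := by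
  unfold Lam at hv
  induction hv using AddSubgroup.closure_induction with
  | mem v hv =>
    obtain ⟨hvs, hxv⟩ := hv
    refine AddSubgroup.subset_closure ⟨by rw [LinearIsometryEquiv.norm_map, hvs], ?_⟩
    rw [zero_add, mem_Mv, li_apply_inv]; exact hxv
  | zero => rw [map_zero]; exact AddSubgroup.zero_mem _
  | add v w _ _ ihv ihw => rw [map_add]; exact AddSubgroup.add_mem _ ihv ihw
  | neg v _ ih => rw [map_neg]; exact AddSubgroup.neg_mem _ ih

theorem layer_mv {X : Set E} {s : ℝ} {y : E} {φ : LI} (h : LayerAt (Mv X y φ) e2 s 0) :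
    LayerAt X (φ e2) s y where
  flat := by
    intro v hv
    obtain ⟨h1, h2⟩ := h.flat _ (lam_mv' hv)
    rw [inner_e2, inv_coord] at h1
    rw [zero_add, mem_Mv, li_apply_inv] at h2
    exact ⟨h1, h2⟩
  same := by
    intro v hv w hw
    have h1 := h.same _ (lam_mv' hv) ((φ⁻¹ : LI) w) (by rw [LinearIsometryEquiv.norm_map, hw])
    rw [zero_add, zero_add, mem_Mv, mem_Mv, map_add, li_apply_inv, li_apply_inv, ← add_assoc] at h1
    exact h1
  slab := by
    intro z hz hz2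
    have h1 := h.slab ((φ⁻¹ : LI) (z - y)) (Mv_mem_of hz) (by
      rw [sub_zero, inner_e2, inv_coord]; exact hz2)
    rw [sub_zero] at h1
    have h2 := lam_mv h1
    rwa [li_apply_inv] at h2
  dense := by
    intro w hw
    obtain ⟨v, hv, hvd⟩ := h.dense ((φ⁻¹ : LI) w) (by rw [inner_e2, inv_coord]; exact hw)
    refine ⟨φ v, lam_mv hv, ?_⟩
    have : ‖w - φ v‖ = ‖(φ⁻¹ : LI) w - v‖ := by
      rw [← LinearIsometryEquiv.norm_map φ ((φ⁻¹ : LI) w - v), map_sub, li_apply_inv]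
    rw [this]; exact hvd
  near := by
    intro z hz hz1
    have h1 := h.near ((φ⁻¹ : LI) (z - y)) (Mv_mem_of hz) (by
      rw [sub_zero, LinearIsometryEquiv.norm_map]; exact hz1)
    rw [sub_zero] at h1
    have h2 := lam_mv h1
    rwa [li_apply_inv] at h2

theorem layer_neg {X : Set E} {a : E} {s : ℝ} {x : E} (h : LayerAt X a s x) :
    LayerAt X (-a) s x where
  flat := by
    intro v hv
    obtain ⟨h1, h2⟩ := h.flat v hv
    exact ⟨by rw [inner_neg_right, h1, neg_zero], h2⟩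
  same := h.same
  slab := by
    intro z hz hz2
    rw [inner_neg_right, abs_neg] at hz2
    exact h.slab z hz hz2
  dense := by
    intro w hw
    rw [inner_neg_right, neg_eq_zero] at hw
    exact h.dense w hw
  near := h.near

theorem axis_cases {φ : LI} (b0 : (φ e2) 0 = 0) (b1 : (φ e2) 1 = 0) :
    φ e2 = e2 ∨ φ e2 = -e2 := by
  have := norm_sq_coord (φ e2)
  rw [b0, b1, LinearIsometryEquiv.norm_map, norm_e2] at this
  have h2 : ((φ e2) 2 - 1) * ((φ e2) 2 + 1) = 0 := by linarith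
  have c0 : e2 0 = 0 := by simp [e2]
  have c1 : e2 1 = 0 := by simp [e2]
  have c2 : e2 2 = 1 := by simp [e2]
  rcases mul_eq_zero.1 h2 with h3 | h3
  · left
    ext i
    fin_cases i
    · show (φ e2) 0 = e2 0
      rw [b0, c0]
    · show (φ e2) 1 = e2 1
      rw [b1, c1]
    · show (φ e2) 2 = e2 2
      rw [c2]; linarith
  · right
    ext i
    fin_cases i
    · show (φ e2) 0 = (-e2) 0
      rw [b0, PiLp.neg_apply, c0, neg_zero]
    · show (φ e2) 1 = (-e2) 1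
      rw [b1, PiLp.neg_apply, c1, neg_zero]
    · show (φ e2) 2 = (-e2) 2
      rw [PiLp.neg_apply, c2]; linarith

/-- All axes are vertical. -/
theorem Loc.vert {X : Set E} {s : ℝ} {D : ℝ → Prop} (h : Loc X s D) {y : E} (hy : y ∈ X) {φ : LI}
    (hφ : Eqv X 0 y 9 φ) : φ e2 = e2 ∨ φ e2 = -e2 := by
  have hp := h.md.pos
  have hs := h.sle
  by_cases hb : (φ e2) 0 = 0 ∧ (φ e2) 1 = 0
  · exact axis_cases hb.1 hb.2
  · have hl := layer_mv (h.mv hy hφ).layer0
    set a := φ e2 with ha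
    have hden : a 0 ^ 2 + a 1 ^ 2 ≠ 0 := by
      intro he
      apply hb
      constructor
      · nlinarith [sq_nonneg (a 0), sq_nonneg (a 1)]
      · nlinarith [sq_nonneg (a 0), sq_nonneg (a 1)]
    set t := (inner ℝ y a : ℝ) / (a 0 ^ 2 + a 1 ^ 2) with ht
    have ht' : t * (a 0 ^ 2 + a 1 ^ 2) = inner ℝ y a := div_mul_cancel₀ _ hden
    set p : E := !₂[t * a 0, t * a 1, 0] with hp_def
    have p2 : p 2 = 0 := by simp [hp_def]
    have pa : inner ℝ (p - y) a = (0 : ℝ) := by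
      rw [inner_sub_left, inner_coord p a, p2, ← ht']
      simp [hp_def]
      ring
    obtain ⟨v, hv, hvd⟩ := hl.dense (p - y) pa
    have hz : y + v ∈ X := (hl.flat v hv).2
    have hz2 : |(y + v) 2| < 1.7 := by
      have e1 : (y + v) 2 = -((p - y - v) 2) := by
        simp only [PiLp.sub_apply, PiLp.add_apply]; rw [p2]; ring
      have e3 : |(p - y - v) 2| ≤ ‖p - y - v‖ := by
        have := norm_sq_coord (p - y - v)
        apply abs_le_of_sq_le_sq _ (norm_nonneg _)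
        nlinarith [sq_nonneg ((p - y - v) 0), sq_nonneg ((p - y - v) 1)]
      rw [e1, abs_neg]
      linarith
    have hlam := h.slab0 hz hz2
    have q1 : Q X s 0 (y + v) := by
      have := h.lamQ' h.zero hlam
      rwa [zero_add] at this
    have q2 : Q X s 0 y := by
      refine ⟨hy, fun w hw => ?_⟩
      rw [← q1.2 w hw]
      exact (hl.same v hv w hw).symm
    obtain ⟨b0, b1⟩ := h.axis q2 hφ
    exact axis_cases b0 b1

theorem Loc.layers {X : Set E} {s : ℝ} {D : ℝ → Prop} (h : Loc X s D) :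
    ∀ x ∈ X, LayerAt X e2 s x := by
  intro x hx
  obtain ⟨φ, hφ⟩ := h.nn 0 h.zero x hx
  have hl := layer_mv (h.mv hx hφ).layer0
  rcases h.vert hx hφ with h1 | h1
  · rwa [h1] at hl
  · rw [h1] at hl
    have := layer_neg hl
    rwa [neg_neg] at this

/-! ### Local data from B2 -/

theorem rotE_add (θ η : ℝ) (v : E) : rotE θ (rotE η v) = rotE (θ + η) v := by
  ext i
  fin_cases i
  · simp [rotE, Real.cos_add, Real.sin_add]; ring
  · simp [rotE, Real.cos_add, Real.sin_add]; ring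
  · simp [rotE]

theorem rotE_norm (θ : ℝ) (v : E) : ‖rotE θ v‖ = ‖v‖ := by
  have h : ‖rotE θ v‖ ^ 2 = ‖v‖ ^ 2 := by
    rw [norm_sq_coord, norm_sq_coord]
    simp [rotE]
    linear_combination (v 0 ^ 2 + v 1 ^ 2) * Real.sin_sq_add_cos_sq θ
  exact (sq_eq_sq₀ (norm_nonneg _) (norm_nonneg _)).1 h

theorem rotE_inner (θ η : ℝ) (v : E) (hv : v 2 = 0) :
    inner ℝ (rotE θ v) (rotE η v) = ‖v‖ ^ 2 * Real.cos (θ - η) := by
  rw [norm_sq_coord, inner_coord, Real.cos_sub]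
  simp [rotE, hv]
  ring

theorem rotE_int {n : ℕ} (hn : 0 < n) (v : E) (K : ℤ) :
    ∃ k : ℕ, rotE (K * (2 * π / n)) v = rotE (k * (2 * π / n)) v := by
  have hn' : (n : ℝ) ≠ 0 := by positivity
  refine ⟨(K % n).toNat, ?_⟩
  have h0 : 0 ≤ K % n := Int.emod_nonneg _ (by exact_mod_cast hn.ne')
  have h1 : (((K % n).toNat : ℕ) : ℤ) = K % n := Int.toNat_of_nonneg h0
  have h2 : (K : ℤ) = K % n + n * (K / n) := (Int.emod_add_mul_ediv K n).symm
  have h3 : (K : ℝ) = (((K % n).toNat : ℕ) : ℝ) + n * ((K / n : ℤ) : ℝ) := by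
    have : (((K % n).toNat : ℕ) : ℝ) = ((K % n : ℤ) : ℝ) := by
      have := congrArg (fun z : ℤ => (z : ℝ)) h1
      simpa only [Int.cast_natCast] using this
    rw [this]
    exact_mod_cast h2
  have h4 : (K : ℝ) * (2 * π / n) = (((K % n).toNat : ℕ) : ℝ) * (2 * π / n)
      + ((K / n : ℤ) : ℝ) * (2 * π) := by
    rw [h3]; field_simp
  rw [h4]
  unfold rotE
  rw [Real.cos_add_int_mul_two_pi, Real.sin_add_int_mul_two_pi]

/-- The local data at the origin follow from B2. -/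
theorem loc_of_b2 {r : ℝ} {X : Set E} {L : ℝ} {n : ℕ} (hB : BH r X L n) {s : ℝ} {v₀ : E}
    (hs : s ≤ 0.2) (hm : MinD X s) (h0 : ‖v₀‖ = s) (h02 : v₀ 2 = 0)
    (hin : ∀ k : ℕ, rotE (k * (2 * π / n)) v₀ ∈ X)
    (hall : ∀ v ∈ X, ‖v‖ = s → ∃ k : ℕ, v = rotE (k * (2 * π / n)) v₀)
    (hht : ∀ v ∈ X, ‖v‖ ≤ 1.8 → |v 2| ≤ ‖v‖ ^ 2 / 3.9) :
    Loc X s (fun t => ∃ m : ℤ, t = s ^ 2 * Real.cos (m * (2 * π / n))) := by
  have hp := hm.pos
  have hnpos : 0 < n := by rcases hB.hn with h | h <;> omega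
  have hcos : 0 ≤ Real.cos (2 * π / n) ∧ Real.cos (2 * π / n) ≤ 1 / 2 := by
    rcases hB.hn with h | h
    · have : 2 * π / (n : ℝ) = π / 2 := by rw [h]; push_cast; ring
      rw [this, Real.cos_pi_div_two]; norm_num
    · have : 2 * π / (n : ℝ) = π / 3 := by rw [h]; push_cast; ring
      rw [this, Real.cos_pi_div_three]; norm_num
  obtain ⟨q, hq⟩ : ∃ q : ℤ, (q : ℝ) * (2 * π / n) = π := by
    rcases hB.hn with h | h
    · exact ⟨2, by rw [h]; push_cast; ring⟩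
    · exact ⟨3, by rw [h]; push_cast; ring⟩
  have hinZ : ∀ K : ℤ, rotE (K * (2 * π / n)) v₀ ∈ X := by
    intro K
    obtain ⟨k, hk⟩ := rotE_int hnpos v₀ K
    rw [hk]; exact hin k
  refine ⟨hB.nn, hB.zero, hs, hm, ?_, ?_, ?_, hht, ?_⟩
  · have hev : ∀ t : ℝ, (∃ m : ℤ, t = s ^ 2 * Real.cos (m * (2 * π / n))) →
        ∃ m : ℤ, -t = s ^ 2 * Real.cos (m * (2 * π / n)) := by
      rintro t ⟨m, rfl⟩
      refine ⟨m + q, ?_⟩
      have : (((m + q : ℤ) : ℝ)) * (2 * π / n) = m * (2 * π / n) + π := by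
        push_cast; rw [add_mul, hq]
      rw [this, Real.cos_add_pi]; ring
    intro t
    constructor
    · intro h
      have := hev _ h
      rwa [neg_neg] at this
    · exact hev t
  · intro v hv hvs u hus
    obtain ⟨k, rfl⟩ := hall v hv hvs
    have hv2 : (rotE (k * (2 * π / n)) v₀) 2 = 0 := by simp [rotE, h02]
    constructor
    · intro hu
      obtain ⟨j, rfl⟩ := hall u hu hus
      refine ⟨by simp [rotE, h02], (j : ℤ) - (k : ℤ), ?_⟩
      rw [rotE_inner _ _ _ h02, h0]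
      congr 2
      push_cast; ring
    · rintro ⟨hu2, m, hm'⟩
      set v := rotE (k * (2 * π / n)) v₀ with hvdef
      have n1 := norm_sq_coord v
      have n2 := norm_sq_coord u
      rw [hvs, hv2] at n1
      rw [hus, hu2] at n2
      have i1 := inner_coord u v
      rw [hv2, hu2, hm'] at i1
      set C := Real.cos (m * (2 * π / n)) with hC
      set S := Real.sin (m * (2 * π / n)) with hS
      have hCS : S ^ 2 + C ^ 2 = 1 := Real.sin_sq_add_cos_sq _
      have hT : (v 0 * u 1 - v 1 * u 0 - s ^ 2 * S) * (v 0 * u 1 - v 1 * u 0 + s ^ 2 * S) = 0 := by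
        have e1 : (v 0 * u 1 - v 1 * u 0) ^ 2 + (s ^ 2 * C) ^ 2 = s ^ 2 * s ^ 2 := by
          rw [i1]
          nth_rw 1 [n1]
          rw [n2]; ring
        linear_combination e1 - s ^ 4 * hCS
      have hs2 : s ^ 2 ≠ 0 := by positivity
      rcases mul_eq_zero.1 hT with hT' | hT'
      · have hu : u = rotE (((m + k : ℤ) : ℝ) * (2 * π / n)) v₀ := by
          have : ((m + k : ℤ) : ℝ) * (2 * π / n) = m * (2 * π / n) + k * (2 * π / n) := by
            push_cast; ring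
          rw [this, ← rotE_add, ← hvdef]
          ext i
          fin_cases i
          · show u 0 = (rotE (m * (2 * π / n)) v) 0
            have : (rotE (m * (2 * π / n)) v) 0 = C * v 0 - S * v 1 := by simp [rotE, hC, hS]
            rw [this]
            apply mul_left_cancel₀ hs2
            linear_combination (u 0) * n1 - v 0 * i1 - v 1 * hT'
          · show u 1 = (rotE (m * (2 * π / n)) v) 1
            have : (rotE (m * (2 * π / n)) v) 1 = S * v 0 + C * v 1 := by simp [rotE, hC, hS]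
            rw [this]
            apply mul_left_cancel₀ hs2
            linear_combination (u 1) * n1 - v 1 * i1 + v 0 * hT'
          · show u 2 = (rotE (m * (2 * π / n)) v) 2
            have : (rotE (m * (2 * π / n)) v) 2 = v 2 := by simp [rotE]
            rw [this, hu2, hv2]
        rw [hu]; exact hinZ _
      · have hu : u = rotE (((-m + k : ℤ) : ℝ) * (2 * π / n)) v₀ := by
          have : ((-m + k : ℤ) : ℝ) * (2 * π / n) = -(m * (2 * π / n)) + k * (2 * π / n) := by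
            push_cast; ring
          rw [this, ← rotE_add, ← hvdef]
          ext i
          fin_cases i
          · show u 0 = (rotE (-(m * (2 * π / n))) v) 0
            have : (rotE (-(m * (2 * π / n))) v) 0 = C * v 0 + S * v 1 := by
              simp [rotE, hC, hS]
            rw [this]
            apply mul_left_cancel₀ hs2
            linear_combination (u 0) * n1 - v 0 * i1 - v 1 * hT'
          · show u 1 = (rotE (-(m * (2 * π / n))) v) 1
            have : (rotE (-(m * (2 * π / n))) v) 1 = -(S * v 0) + C * v 1 := by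
              simp [rotE, hC, hS]
            rw [this]
            apply mul_left_cancel₀ hs2
            linear_combination (u 1) * n1 - v 1 * i1 + v 0 * hT'
          · show u 2 = (rotE (-(m * (2 * π / n))) v) 2
            have : (rotE (-(m * (2 * π / n))) v) 2 = v 2 := by simp [rotE]
            rw [this, hu2, hv2]
        rw [hu]; exact hinZ _
  · intro v hv hvs
    obtain ⟨k, rfl⟩ := hall v hv hvs
    refine ⟨rotE ((k + 1 : ℕ) * (2 * π / n)) v₀, hin _, by rw [rotE_norm, h0], ?_⟩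
    rw [rotE_inner _ _ _ h02, h0]
    have : (k : ℝ) * (2 * π / n) - ((k + 1 : ℕ) : ℝ) * (2 * π / n) = -(2 * π / n) := by
      push_cast; ring
    rw [this, Real.cos_neg]
    have hs2 : 0 < s ^ 2 := by positivity
    constructor
    · exact mul_nonneg hs2.le hcos.1
    · nlinarith [hcos.2]
  · intro v hv hv1
    exact (hB.ssig v hv1).1 hv

end Pool.Agent.H94.RDB3

namespace Pool.Agent.H94

open Pool.Agent.H576.RD

/-- Lemma B3 of project RD. -/
theorem rd_b3 (h1 : S_B2) : S_B3 := by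
  intro r X L n hB
  obtain ⟨s, v₀, hs, hm, h0, h02, hin, hall, hht⟩ := h1 r X L n hB
  exact ⟨s, hs, hm, (RDB3.loc_of_b2 hB hs hm h0 h02 hin hall hht).layers⟩

end Pool.Agent.H94
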