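import Pool.Agent.H770.GS.TB2

/-!
# Project TH: TH4 (order of the dimensions)
-/

set_option autoImplicit false

open MeasureTheory Set intervalIntegral Filter Topology

namespace Pool.Agent.H94.TH4

open Pool.Agent.H770.GS Pool.Agent.Helper82.GC

/-- `S_TH4` with its body (and those of `S_TH2`, `S_TH3`) unfolded -/
theorem th4
    (h2 : ∀ (r : ℝ) (k : ℕ), 0 < r → FF r k 0 = Zr (Real.sqrt 2 * r) * Zr r ^ k)
    (h3 : ∀ (r : ℝ) (n : ℕ) (L : List ℝ), 0 < r → L.length = n →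
      (L.map fun x => x ^ 2).sum = 1 →
        Asl r (vec (n + 1) (L ++ [0])) 0 = Zr r * Asl r (vec n L) 0) :
    ∀ (r : ℝ) (k : ℕ), 0 < r → 1 ≤ k →
    (∀ θ : EuclideanSpace ℝ (Fin (k + 1 + 2)), ‖θ‖ = 1 →
      Asl r θ 0 ≤ max (Asl r (dirAB (k + 1) (1 / Real.sqrt 2) 0) 0)
        (Asl r (dirAB (k + 1) (1 / Real.sqrt ((k + 1 : ℕ) + 2))
          (1 / Real.sqrt ((k + 1 : ℕ) + 2))) 0)) →
    FF r k 0 < FF r k k → FF r (k + 1) 0 < FF r (k + 1) ((k + 1 : ℕ) : ℝ) := by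
  intro r k hr hk hmax hlt
  have hk2 : (0 : ℝ) < (k : ℝ) + 2 := by positivity
  obtain ⟨d, hd⟩ : ∃ d, d = 1 / Real.sqrt ((k : ℝ) + 2) := ⟨_, rfl⟩
  have hd2 : ((k : ℝ) + 2) * d ^ 2 = 1 := by
    rw [hd, div_pow, Real.sq_sqrt hk2.le]
    field_simp
  have hsum : ((List.replicate (k + 2) d).map fun x => x ^ 2).sum = 1 := by
    rw [List.map_replicate, List.sum_replicate, nsmul_eq_mul]
    push_cast
    exact hd2
  have hlen : (List.replicate (k + 2) d).length = k + 2 := List.length_replicate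
  have h4 : Asl r (vec (k + 1 + 2) (List.replicate (k + 2) d ++ [0])) 0 =
      Zr r * Asl r (vec (k + 2) (List.replicate (k + 2) d)) 0 :=
    h3 r (k + 2) (List.replicate (k + 2) d) hr hlen hsum
  have h5 : Asl r (vec (k + 2) (List.replicate (k + 2) d)) 0 = FF r k k := by
    rw [← Asl_Dn hr hk, ← hd]
    rfl
  have hnorm : ‖vec (k + 1 + 2) (List.replicate (k + 2) d ++ [0])‖ = 1 := by
    refine vec_norm ?_ ?_
    · rw [List.length_append, hlen]
      rfl
    · rw [List.map_append, List.sum_append, hsum]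
      simp
  have h6 := hmax _ hnorm
  rw [h4, h5, Asl_D2 hr (Nat.le_add_left 1 k), Asl_Dn hr (Nat.le_add_left 1 k)] at h6
  have h7 : FF r (k + 1) 0 = Zr r * FF r k 0 := by
    rw [h2 r (k + 1) hr, h2 r k hr, pow_succ]
    ring
  have h8 : FF r (k + 1) 0 < Zr r * FF r k k := by
    rw [h7]
    exact mul_lt_mul_of_pos_left hlt (Zr_pos hr)
  rcases lt_max_iff.1 (h8.trans_le h6) with h | h
  · exact absurd h (lt_irrefl _)
  · exact h

end Pool.Agent.H94.TH4
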