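import Pool.Agent.H979.BK.Stm

/-! # Project BK: concentration of one block of random contractions (S_AZ) -/

set_option autoImplicit false

open Filter Topology Finset Pool.Agent.H979.BK

namespace Pool.Agent.H94.BKAZ

/-! ### The exponential of the generator -/

section Exp
variable {A : Type} [NormedRing A] [NormedAlgebra ℂ A] [CompleteSpace A]

lemma exp_add' (Y : A) (s t : ℝ) : NormedSpace.exp (((s + t : ℝ) : ℂ) • Y) =
    NormedSpace.exp ((s : ℂ) • Y) * NormedSpace.exp ((t : ℂ) • Y) := by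
  let _ : NormedAlgebra ℚ A := NormedAlgebra.restrictScalars ℚ ℂ A
  have h : Commute ((s : ℂ) • Y) ((t : ℂ) • Y) :=
    ((Commute.refl Y).smul_left _).smul_right _
  rw [← NormedSpace.exp_add_of_commute h, ← add_smul, Complex.ofReal_add]

lemma exp_small (Y : A) {e : ℝ} (he : 0 < e) : ∃ r : ℝ, 0 < r ∧ ∀ t : ℝ, 0 < t → t < r →
    ‖(1 + (t : ℂ) • Y) - NormedSpace.exp ((t : ℂ) • Y)‖ ≤ e * t := by
  have h : HasFDerivAt (NormedSpace.exp : A → A) (1 : A →L[ℂ] A) 0 := hasFDerivAt_exp_zero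
  rw [hasFDerivAt_iff_isLittleO_nhds_zero] at h
  have hY : 0 < ‖Y‖ + 1 := by positivity
  have h1 := h.def (c := e / (‖Y‖ + 1)) (by positivity)
  rw [Metric.eventually_nhds_iff] at h1
  obtain ⟨r, hr, h2⟩ := h1
  refine ⟨r / (‖Y‖ + 1), by positivity, fun t ht htr => ?_⟩
  have h3 : ‖(t : ℂ) • Y‖ = t * ‖Y‖ := by
    rw [norm_smul, Complex.norm_real, Real.norm_of_nonneg ht.le]
  rw [lt_div_iff₀ hY] at htr
  have h5 : t * ‖Y‖ < r := by nlinarith
  have h4 := @h2 ((t : ℂ) • Y) (by rw [dist_zero_right, h3]; exact h5)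
  rw [zero_add, NormedSpace.exp_zero, h3] at h4
  have h6 : (1 : A →L[ℂ] A) ((t : ℂ) • Y) = (t : ℂ) • Y := rfl
  rw [h6] at h4
  have h7 : (1 + (t : ℂ) • Y) - NormedSpace.exp ((t : ℂ) • Y) =
      -(NormedSpace.exp ((t : ℂ) • Y) - 1 - (t : ℂ) • Y) := by abel
  rw [h7, norm_neg]
  refine h4.trans ?_
  rw [div_mul_eq_mul_div, div_le_iff₀ hY]
  nlinarith [mul_pos he ht]

lemma exp_bdd (Y : A) (T : ℝ) : ∃ K : ℝ, 0 ≤ K ∧ ∀ t : ℝ, 0 ≤ t → t ≤ T →
    ‖NormedSpace.exp ((t : ℂ) • Y)‖ ≤ K := by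
  let _ : NormedAlgebra ℚ A := NormedAlgebra.restrictScalars ℚ ℂ A
  have hc : Continuous fun t : ℝ => NormedSpace.exp ((t : ℂ) • Y) :=
    NormedSpace.exp_continuous.comp (Complex.continuous_ofReal.smul continuous_const)
  obtain ⟨K, hK⟩ := (isCompact_Icc (a := (0 : ℝ)) (b := T)).exists_bound_of_continuousOn
    hc.continuousOn
  exact ⟨max K 0, le_max_right _ _, fun t h0 h1 => (hK t ⟨h0, h1⟩).trans (le_max_left _ _)⟩

lemma exp_near (Y : A) {e : ℝ} (he : 0 < e) : ∃ r : ℝ, 0 < r ∧ ∀ t : ℝ, 0 ≤ t → t < r →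
    ‖1 - NormedSpace.exp ((t : ℂ) • Y)‖ ≤ e := by
  let _ : NormedAlgebra ℚ A := NormedAlgebra.restrictScalars ℚ ℂ A
  have hc : Continuous fun t : ℝ => NormedSpace.exp ((t : ℂ) • Y) :=
    NormedSpace.exp_continuous.comp (Complex.continuous_ofReal.smul continuous_const)
  have h0 := Metric.tendsto_nhds.1 (hc.tendsto 0) e he
  rw [Metric.eventually_nhds_iff] at h0
  obtain ⟨r, hr, h⟩ := h0
  refine ⟨r, hr, fun t h1 h2 => ?_⟩
  have h3 := @h t (by rw [dist_zero_right, Real.norm_of_nonneg h1]; exact h2)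
  rw [Complex.ofReal_zero, zero_smul, NormedSpace.exp_zero, dist_comm, dist_eq_norm] at h3
  exact h3.le

lemma pow_lim (Y : A) (hY : ∀ δ : ℝ, 0 ≤ δ → δ ≤ 1 → ∀ x : A, ‖(1 + (δ : ℂ) • Y) * x‖ ≤ ‖x‖)
    {T e : ℝ} (hT : 0 < T) (he : 0 < e) :
    ∃ δ0 : ℝ, 0 < δ0 ∧ δ0 ≤ 1 ∧ ∀ δ : ℝ, 0 < δ → δ < δ0 →
      ‖(1 + (δ : ℂ) • Y) ^ ⌊T / δ⌋₊ - NormedSpace.exp ((T : ℂ) • Y)‖ ≤ e := by
  obtain ⟨K, hK0, hK⟩ := exp_bdd Y T
  obtain ⟨r1, hr1, h1⟩ := exp_small Y (e := e / (2 * (K + 1) * T)) (by positivity)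
  obtain ⟨r2, hr2, h2⟩ := exp_near Y (e := e / (2 * (K + 1))) (by positivity)
  refine ⟨min 1 (min r1 r2), by positivity, min_le_left _ _, fun δ hδ hδ0 => ?_⟩
  have hδ1 : δ < 1 := lt_of_lt_of_le hδ0 (min_le_left _ _)
  have hδr1 : δ < r1 := lt_of_lt_of_le hδ0 ((min_le_right _ _).trans (min_le_left _ _))
  have hδr2 : δ < r2 := lt_of_lt_of_le hδ0 ((min_le_right _ _).trans (min_le_right _ _))
  set m := ⌊T / δ⌋₊ with hm
  have hm1 : (m : ℝ) * δ ≤ T := by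
    have := Nat.floor_le (a := T / δ) (by positivity)
    rwa [le_div_iff₀ hδ] at this
  have hm2 : T - (m : ℝ) * δ < δ := by
    have := Nat.lt_floor_add_one (T / δ)
    rw [div_lt_iff₀ hδ] at this
    rw [← hm] at this
    linarith
  have hind : ∀ k : ℕ, (k : ℝ) * δ ≤ T →
      ‖(1 + (δ : ℂ) • Y) ^ k - NormedSpace.exp ((((k : ℝ) * δ : ℝ) : ℂ) • Y)‖ ≤
        k * (e / (2 * (K + 1) * T) * δ * K) := by
    intro k
    induction k with
    | zero =>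
      intro _
      simp
    | succ k ih =>
      intro hk
      push_cast at hk
      have hk' : (k : ℝ) * δ ≤ T := by nlinarith
      have e1 : (((k + 1 : ℕ) : ℝ) * δ : ℝ) = δ + (k : ℝ) * δ := by push_cast; ring
      have e2 : (1 + (δ : ℂ) • Y) ^ (k + 1) -
          NormedSpace.exp ((((((k + 1 : ℕ) : ℝ)) * δ : ℝ) : ℂ) • Y) =
          (1 + (δ : ℂ) • Y) * ((1 + (δ : ℂ) • Y) ^ k -
            NormedSpace.exp ((((k : ℝ) * δ : ℝ) : ℂ) • Y)) +
          ((1 + (δ : ℂ) • Y) - NormedSpace.exp ((δ : ℂ) • Y)) *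
            NormedSpace.exp ((((k : ℝ) * δ : ℝ) : ℂ) • Y) := by
        rw [e1, exp_add', pow_succ']
        noncomm_ring
      rw [e2]
      refine (norm_add_le _ _).trans ?_
      have a1 := hY δ hδ.le hδ1.le ((1 + (δ : ℂ) • Y) ^ k -
            NormedSpace.exp ((((k : ℝ) * δ : ℝ) : ℂ) • Y))
      have a2 := ih hk'
      have a3 : ‖((1 + (δ : ℂ) • Y) - NormedSpace.exp ((δ : ℂ) • Y)) *
            NormedSpace.exp ((((k : ℝ) * δ : ℝ) : ℂ) • Y)‖ ≤
            (e / (2 * (K + 1) * T) * δ) * K :=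
        (norm_mul_le _ _).trans (mul_le_mul (h1 δ hδ hδr1) (hK _ (by positivity) hk')
          (norm_nonneg _) (by positivity))
      calc _ ≤ k * (e / (2 * (K + 1) * T) * δ * K) + (e / (2 * (K + 1) * T) * δ) * K :=
            add_le_add (a1.trans a2) a3
        _ = ((k + 1 : ℕ) : ℝ) * (e / (2 * (K + 1) * T) * δ * K) := by push_cast; ring
  have b1 := hind m hm1
  have b2 : (m : ℝ) * (e / (2 * (K + 1) * T) * δ * K) ≤ e / 2 := by
    have c1 : (m : ℝ) * (e / (2 * (K + 1) * T) * δ * K) =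
        (m * δ) * K * (e / (2 * (K + 1) * T)) := by ring
    have c2 : T * (K + 1) * (e / (2 * (K + 1) * T)) = e / 2 := by field_simp
    rw [c1, ← c2]
    refine mul_le_mul_of_nonneg_right ?_ (by positivity)
    exact mul_le_mul hm1 (by linarith) hK0 hT.le
  have b3 : ‖NormedSpace.exp ((((m : ℝ) * δ : ℝ) : ℂ) • Y) - NormedSpace.exp ((T : ℂ) • Y)‖ ≤
      e / 2 := by
    have c1 : NormedSpace.exp ((((m : ℝ) * δ : ℝ) : ℂ) • Y) - NormedSpace.exp ((T : ℂ) • Y) =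
        NormedSpace.exp ((((m : ℝ) * δ : ℝ) : ℂ) • Y) *
          (1 - NormedSpace.exp (((T - (m : ℝ) * δ : ℝ) : ℂ) • Y)) := by
      have c0 : (T : ℂ) = (((m : ℝ) * δ + (T - (m : ℝ) * δ) : ℝ) : ℂ) := by
        congr 1
        ring
      rw [c0, exp_add', mul_sub, mul_one]
    rw [c1]
    refine (norm_mul_le _ _).trans ?_
    calc _ ≤ K * (e / (2 * (K + 1))) := mul_le_mul (hK _ (by positivity) hm1)
          (h2 _ (by linarith) (by linarith)) (norm_nonneg _) hK0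
      _ ≤ (K + 1) * (e / (2 * (K + 1))) :=
          mul_le_mul_of_nonneg_right (by linarith) (by positivity)
      _ = e / 2 := by field_simp
  calc _ = ‖((1 + (δ : ℂ) • Y) ^ m - NormedSpace.exp ((((m : ℝ) * δ : ℝ) : ℂ) • Y)) +
        (NormedSpace.exp ((((m : ℝ) * δ : ℝ) : ℂ) • Y) - NormedSpace.exp ((T : ℂ) • Y))‖ := by
        congr 1
        abel
    _ ≤ _ := norm_add_le _ _
    _ ≤ e / 2 + e / 2 := add_le_add (b1.trans b2) b3
    _ = e := by ring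

end Exp

/-! ### The Markov operator -/

section Mk
variable {F : Type} [NormedAddCommGroup F] [NormedSpace ℂ F] {ι : Type} [Fintype ι]

lemma KKm_mono (P : ι → F →L[ℂ] F) {μ : ι → ℝ} (δ : ℝ) (hμ : ∀ s, 0 ≤ μ s) (m : ℕ) :
    ∀ f g : (F →L[ℂ] ℂ) → ℝ, (∀ w, f w ≤ g w) →
      ∀ w, (KK P μ δ)^[m] f w ≤ (KK P μ δ)^[m] g w := by
  induction m with
  | zero => exact fun f g h w => h w
  | succ m ih =>
    intro f g h w
    rw [Function.iterate_succ_apply, Function.iterate_succ_apply]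
    exact ih _ _ (fun w' => Finset.sum_le_sum fun s _ =>
      mul_le_mul_of_nonneg_left (h _) (hμ s)) w

lemma KKm_sum (P : ι → F →L[ℂ] F) (μ : ι → ℝ) (δ : ℝ) {J : Type} (S : Finset J) (m : ℕ) :
    ∀ (f : J → (F →L[ℂ] ℂ) → ℝ) (w : F →L[ℂ] ℂ),
      (KK P μ δ)^[m] (fun w' => ∑ j ∈ S, f j w') w = ∑ j ∈ S, (KK P μ δ)^[m] (f j) w := by
  induction m with
  | zero => exact fun f w => rfl
  | succ m ih =>
    intro f w
    have h1 : KK P μ δ (fun w' => ∑ j ∈ S, f j w') = fun w' => ∑ j ∈ S, KK P μ δ (f j) w' := by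
      funext w'
      unfold KK
      rw [Finset.sum_comm]
      exact Finset.sum_congr rfl fun s _ => Finset.mul_sum _ _ _
    rw [Function.iterate_succ_apply, h1, ih]
    exact Finset.sum_congr rfl fun j _ => by rw [Function.iterate_succ_apply]

lemma KKm_mul (P : ι → F →L[ℂ] F) (μ : ι → ℝ) (δ : ℝ) (m : ℕ) :
    ∀ (a : ℝ) (f : (F →L[ℂ] ℂ) → ℝ) (w : F →L[ℂ] ℂ),
      (KK P μ δ)^[m] (fun w' => a * f w') w = a * (KK P μ δ)^[m] f w := by
  induction m with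
  | zero => exact fun a f w => rfl
  | succ m ih =>
    intro a f w
    have h1 : KK P μ δ (fun w' => a * f w') = fun w' => a * KK P μ δ f w' := by
      funext w'
      unfold KK
      rw [Finset.mul_sum]
      exact Finset.sum_congr rfl fun s _ => by ring
    rw [Function.iterate_succ_apply, h1, ih, Function.iterate_succ_apply]

lemma KKm_zero (P : ι → F →L[ℂ] F) {μ : ι → ℝ} (δ : ℝ) (h1 : ∑ s, μ s = 1) (m : ℕ) :
    ∀ f : (F →L[ℂ] ℂ) → ℝ, (KK P μ δ)^[m] f 0 = f 0 := by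
  induction m with
  | zero => exact fun f => rfl
  | succ m ih =>
    intro f
    rw [Function.iterate_succ_apply, ih]
    unfold KK
    simp only [ContinuousLinearMap.zero_comp]
    rw [← Finset.sum_mul, h1, one_mul]

lemma exp_le (y : ℝ) : Real.exp y ≤ y + Real.exp (y ^ 2) := by
  have h1 := Real.add_one_le_exp (y ^ 2)
  rcases le_or_gt |y| 1 with h | h
  · have h2 := Real.abs_exp_sub_one_sub_id_le h
    have h3 := (abs_le.1 h2).2
    linarith
  · rcases le_or_gt 0 y with hy | hy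
    · rw [abs_of_nonneg hy] at h
      have : y ≤ y ^ 2 := by nlinarith
      have := Real.exp_le_exp.2 this
      linarith
    · rw [abs_of_neg hy] at h
      have h2 : Real.exp y ≤ 1 := Real.exp_le_one_iff.2 hy.le
      nlinarith

/-- the mean of the one step operators -/
noncomputable def BB (P : ι → F →L[ℂ] F) (μ : ι → ℝ) (δ : ℝ) : F →L[ℂ] F :=
  1 + ((δ : ℝ) : ℂ) • (UU P μ - 1)

lemma UU_apply (P : ι → F →L[ℂ] F) (μ : ι → ℝ) (y : F) :
    UU P μ y = ∑ s, ((μ s : ℝ) : ℂ) • P s y := by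
  unfold UU
  rw [_root_.sum_apply]
  rfl

omit [Fintype ι] in
lemma AA_apply (P : ι → F →L[ℂ] F) (δ : ℝ) (s : ι) (y : F) :
    AA P δ s y = ((1 - δ : ℝ) : ℂ) • y + ((δ : ℝ) : ℂ) • P s y := rfl

lemma BB_apply (P : ι → F →L[ℂ] F) (μ : ι → ℝ) (δ : ℝ) (y : F) :
    BB P μ δ y = y + ((δ : ℝ) : ℂ) • (UU P μ y - y) := rfl

lemma BB_eq (P : ι → F →L[ℂ] F) {μ : ι → ℝ} (h1 : ∑ s, μ s = 1) (δ : ℝ) (y : F) :
    BB P μ δ y = ∑ s, ((μ s : ℝ) : ℂ) • AA P δ s y := by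
  have h2 : ∑ s, ((μ s : ℝ) : ℂ) = 1 := by
    rw [← Complex.ofReal_sum, h1, Complex.ofReal_one]
  have h3 : ∑ s, ((μ s : ℝ) : ℂ) • AA P δ s y =
      ∑ s, (((μ s : ℝ) : ℂ) • (((1 - δ : ℝ) : ℂ) • y) +
        ((δ : ℝ) : ℂ) • (((μ s : ℝ) : ℂ) • P s y)) := by
    refine Finset.sum_congr rfl fun s _ => ?_
    rw [AA_apply, smul_add, smul_comm ((μ s : ℝ) : ℂ) ((δ : ℝ) : ℂ)]
  rw [h3, Finset.sum_add_distrib, ← Finset.sum_smul, h2, one_smul, ← Finset.smul_sum,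
    ← UU_apply, BB_apply, smul_sub, Complex.ofReal_sub, Complex.ofReal_one, sub_smul, one_smul]
  abel

lemma UU_le {P : ι → F →L[ℂ] F} {μ : ι → ℝ} (hP : ∀ s, ‖P s‖ ≤ 1) (hμ : ∀ s, 0 ≤ μ s)
    (h1 : ∑ s, μ s = 1) (y : F) : ‖UU P μ y‖ ≤ ‖y‖ := by
  rw [UU_apply]
  refine (norm_sum_le _ _).trans ?_
  calc ∑ s, ‖((μ s : ℝ) : ℂ) • P s y‖ ≤ ∑ s, μ s * ‖y‖ := by
        refine Finset.sum_le_sum fun s _ => ?_
        rw [norm_smul, Complex.norm_real, Real.norm_of_nonneg (hμ s)]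
        refine mul_le_mul_of_nonneg_left ?_ (hμ s)
        calc ‖P s y‖ ≤ ‖P s‖ * ‖y‖ := (P s).le_opNorm y
          _ ≤ 1 * ‖y‖ := mul_le_mul_of_nonneg_right (hP s) (norm_nonneg _)
          _ = ‖y‖ := one_mul _
    _ = ‖y‖ := by rw [← Finset.sum_mul, h1, one_mul]

lemma AA_le {P : ι → F →L[ℂ] F} (hP : ∀ s, ‖P s‖ ≤ 1) {δ : ℝ} (h0 : 0 ≤ δ) (h1 : δ ≤ 1)
    (s : ι) (y : F) : ‖AA P δ s y‖ ≤ ‖y‖ := by
  rw [AA_apply]
  refine (norm_add_le _ _).trans ?_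
  rw [norm_smul, norm_smul, Complex.norm_real, Complex.norm_real,
    Real.norm_of_nonneg (by linarith : (0 : ℝ) ≤ 1 - δ), Real.norm_of_nonneg h0]
  have h2 : ‖P s y‖ ≤ ‖y‖ := by
    calc ‖P s y‖ ≤ ‖P s‖ * ‖y‖ := (P s).le_opNorm y
      _ ≤ 1 * ‖y‖ := mul_le_mul_of_nonneg_right (hP s) (norm_nonneg _)
      _ = ‖y‖ := one_mul _
  nlinarith

lemma BB_le {P : ι → F →L[ℂ] F} {μ : ι → ℝ} (hP : ∀ s, ‖P s‖ ≤ 1) (hμ : ∀ s, 0 ≤ μ s)
    (h1 : ∑ s, μ s = 1) {δ : ℝ} (h0 : 0 ≤ δ) (hδ : δ ≤ 1) (y : F) :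
    ‖BB P μ δ y‖ ≤ ‖y‖ := by
  rw [BB_eq P h1]
  refine (norm_sum_le _ _).trans ?_
  calc ∑ s, ‖((μ s : ℝ) : ℂ) • AA P δ s y‖ ≤ ∑ s, μ s * ‖y‖ := by
        refine Finset.sum_le_sum fun s _ => ?_
        rw [norm_smul, Complex.norm_real, Real.norm_of_nonneg (hμ s)]
        exact mul_le_mul_of_nonneg_left (AA_le hP h0 hδ s y) (hμ s)
    _ = ‖y‖ := by rw [← Finset.sum_mul, h1, one_mul]

lemma BBpow_le {P : ι → F →L[ℂ] F} {μ : ι → ℝ} (hP : ∀ s, ‖P s‖ ≤ 1) (hμ : ∀ s, 0 ≤ μ s)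
    (h1 : ∑ s, μ s = 1) {δ : ℝ} (h0 : 0 ≤ δ) (hδ : δ ≤ 1) (m : ℕ) (y : F) :
    ‖((BB P μ δ) ^ m) y‖ ≤ ‖y‖ := by
  induction m with
  | zero => exact le_of_eq rfl
  | succ m ih =>
    rw [pow_succ', mul_apply_eq_comp]
    exact (BB_le hP hμ h1 h0 hδ _).trans ih

lemma one_step {P : ι → F →L[ℂ] F} {μ : ι → ℝ} (hP : ∀ s, ‖P s‖ ≤ 1) (hμ : ∀ s, 0 ≤ μ s)
    (h1 : ∑ s, μ s = 1) {δ : ℝ} (h0 : 0 ≤ δ) (t : ℝ) (w : F →L[ℂ] ℂ) (y : F) :
    ∑ s, μ s * Real.exp (t * (w (AA P δ s y)).re) ≤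
      Real.exp (t * (w (BB P μ δ y)).re + (2 * δ * t * ‖w‖ * ‖y‖) ^ 2) := by
  set r : ι → ℝ := fun s => (w (AA P δ s y)).re - (w (BB P μ δ y)).re with hr
  have hsum : ∑ s, μ s * r s = 0 := by
    have e1 : ∑ s, μ s * (w (AA P δ s y)).re = (w (BB P μ δ y)).re := by
      rw [BB_eq P h1, map_sum, Complex.re_sum]
      refine Finset.sum_congr rfl fun s _ => ?_
      rw [map_smul, smul_eq_mul, Complex.re_ofReal_mul]
    simp only [hr, mul_sub]
    rw [Finset.sum_sub_distrib, e1, ← Finset.sum_mul, h1, one_mul, sub_self]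
  have hb : ∀ s, |r s| ≤ 2 * δ * ‖w‖ * ‖y‖ := by
    intro s
    have e1 : r s = (w (AA P δ s y - BB P μ δ y)).re := by
      rw [map_sub, Complex.sub_re]
    have e2 : AA P δ s y - BB P μ δ y = ((δ : ℝ) : ℂ) • (P s y - UU P μ y) := by
      rw [AA_apply, BB_apply, smul_sub, smul_sub, Complex.ofReal_sub, Complex.ofReal_one,
        sub_smul, one_smul]
      abel
    have e3 : ‖P s y - UU P μ y‖ ≤ 2 * ‖y‖ := by
      have h2 : ‖P s y‖ ≤ ‖y‖ := by
        calc ‖P s y‖ ≤ ‖P s‖ * ‖y‖ := (P s).le_opNorm y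
          _ ≤ 1 * ‖y‖ := mul_le_mul_of_nonneg_right (hP s) (norm_nonneg _)
          _ = ‖y‖ := one_mul _
      have := norm_sub_le (P s y) (UU P μ y)
      linarith [UU_le hP hμ h1 y]
    rw [e1]
    calc |(w (AA P δ s y - BB P μ δ y)).re| ≤ ‖w (AA P δ s y - BB P μ δ y)‖ :=
          Complex.abs_re_le_norm _
      _ ≤ ‖w‖ * ‖AA P δ s y - BB P μ δ y‖ := w.le_opNorm _
      _ = ‖w‖ * (δ * ‖P s y - UU P μ y‖) := by
          rw [e2, norm_smul, Complex.norm_real, Real.norm_of_nonneg h0]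
      _ ≤ ‖w‖ * (δ * (2 * ‖y‖)) := by gcongr
      _ = 2 * δ * ‖w‖ * ‖y‖ := by ring
  have hsq : ∀ s, (t * r s) ^ 2 ≤ (2 * δ * t * ‖w‖ * ‖y‖) ^ 2 := by
    intro s
    have e1 : (r s) ^ 2 ≤ (2 * δ * ‖w‖ * ‖y‖) ^ 2 := by
      rw [← sq_abs (r s)]
      exact pow_le_pow_left₀ (abs_nonneg _) (hb s) 2
    calc (t * r s) ^ 2 = t ^ 2 * (r s) ^ 2 := by ring
      _ ≤ t ^ 2 * (2 * δ * ‖w‖ * ‖y‖) ^ 2 := mul_le_mul_of_nonneg_left e1 (sq_nonneg _)
      _ = (2 * δ * t * ‖w‖ * ‖y‖) ^ 2 := by ring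
  have hmain : ∑ s, μ s * Real.exp (t * r s) ≤ Real.exp ((2 * δ * t * ‖w‖ * ‖y‖) ^ 2) := by
    calc ∑ s, μ s * Real.exp (t * r s) ≤
          ∑ s, (t * (μ s * r s) + μ s * Real.exp ((2 * δ * t * ‖w‖ * ‖y‖) ^ 2)) := by
          refine Finset.sum_le_sum fun s _ => ?_
          have e1 := exp_le (t * r s)
          have e2 := Real.exp_le_exp.2 (hsq s)
          calc μ s * Real.exp (t * r s) ≤
                μ s * (t * r s + Real.exp ((2 * δ * t * ‖w‖ * ‖y‖) ^ 2)) :=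
                mul_le_mul_of_nonneg_left (by linarith) (hμ s)
            _ = t * (μ s * r s) + μ s * Real.exp ((2 * δ * t * ‖w‖ * ‖y‖) ^ 2) := by ring
      _ = Real.exp ((2 * δ * t * ‖w‖ * ‖y‖) ^ 2) := by
          rw [Finset.sum_add_distrib, ← Finset.mul_sum, hsum, ← Finset.sum_mul, h1]
          ring
  have hfac : ∀ s, μ s * Real.exp (t * (w (AA P δ s y)).re) =
      Real.exp (t * (w (BB P μ δ y)).re) * (μ s * Real.exp (t * r s)) := by
    intro s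
    have e1 : t * (w (AA P δ s y)).re = t * (w (BB P μ δ y)).re + t * r s := by
      simp only [hr]
      ring
    rw [e1, Real.exp_add]
    ring
  rw [Finset.sum_congr rfl fun s _ => hfac s, ← Finset.mul_sum, Real.exp_add]
  exact mul_le_mul_of_nonneg_left hmain (Real.exp_nonneg _)

lemma exp_moment {P : ι → F →L[ℂ] F} {μ : ι → ℝ} (hP : ∀ s, ‖P s‖ ≤ 1) (hμ : ∀ s, 0 ≤ μ s)
    (h1 : ∑ s, μ s = 1) {δ : ℝ} (h0 : 0 ≤ δ) (hδ : δ ≤ 1) (t : ℝ) (x : F) (m : ℕ) :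
    ∀ w : F →L[ℂ] ℂ, (KK P μ δ)^[m] (fun w' => Real.exp (t * (w' x).re)) w ≤
      Real.exp (t * (w (((BB P μ δ) ^ m) x)).re + m * (2 * δ * t * ‖w‖ * ‖x‖) ^ 2) := by
  induction m with
  | zero =>
    intro w
    simp
  | succ m ih =>
    intro w
    rw [Function.iterate_succ_apply']
    set y := ((BB P μ δ) ^ m) x with hy
    have hyx : ‖y‖ ≤ ‖x‖ := BBpow_le hP hμ h1 h0 hδ m x
    have hB : ((BB P μ δ) ^ (m + 1)) x = BB P μ δ y := by
      rw [pow_succ', mul_apply_eq_comp]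
    have hw : ∀ s, ‖w.comp (AA P δ s)‖ ≤ ‖w‖ := by
      intro s
      refine ContinuousLinearMap.opNorm_le_bound _ (norm_nonneg _) fun z => ?_
      calc ‖w (AA P δ s z)‖ ≤ ‖w‖ * ‖AA P δ s z‖ := w.le_opNorm _
        _ ≤ ‖w‖ * ‖z‖ := mul_le_mul_of_nonneg_left (AA_le hP h0 hδ s z) (norm_nonneg _)
    have hsq : ∀ u v u' v' : ℝ, 0 ≤ u → u ≤ u' → 0 ≤ v → v ≤ v' →
        (2 * δ * t * u * v) ^ 2 ≤ (2 * δ * t * u' * v') ^ 2 := by
      intro u v u' v' hu huu hv hvv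
      have e1 : u * v ≤ u' * v' := mul_le_mul huu hvv hv (hu.trans huu)
      have e2 : (u * v) ^ 2 ≤ (u' * v') ^ 2 := pow_le_pow_left₀ (mul_nonneg hu hv) e1 2
      calc (2 * δ * t * u * v) ^ 2 = (2 * δ * t) ^ 2 * (u * v) ^ 2 := by ring
        _ ≤ (2 * δ * t) ^ 2 * (u' * v') ^ 2 := mul_le_mul_of_nonneg_left e2 (sq_nonneg _)
        _ = (2 * δ * t * u' * v') ^ 2 := by ring
    calc KK P μ δ ((KK P μ δ)^[m] fun w' => Real.exp (t * (w' x).re)) w
        = ∑ s, μ s * (KK P μ δ)^[m] (fun w' => Real.exp (t * (w' x).re))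
            (w.comp (AA P δ s)) := rfl
      _ ≤ ∑ s, μ s * (Real.exp (m * (2 * δ * t * ‖w‖ * ‖x‖) ^ 2) *
            Real.exp (t * (w (AA P δ s y)).re)) := by
          refine Finset.sum_le_sum fun s _ => mul_le_mul_of_nonneg_left ?_ (hμ s)
          refine (ih (w.comp (AA P δ s))).trans ?_
          rw [← Real.exp_add]
          refine Real.exp_le_exp.2 ?_
          have e1 := hsq _ _ _ _ (norm_nonneg _) (hw s) (norm_nonneg x) le_rfl
          have e2 : (m : ℝ) * (2 * δ * t * ‖w.comp (AA P δ s)‖ * ‖x‖) ^ 2 ≤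
              m * (2 * δ * t * ‖w‖ * ‖x‖) ^ 2 := mul_le_mul_of_nonneg_left e1 (Nat.cast_nonneg _)
          have e3 : (w.comp (AA P δ s)) y = w (AA P δ s y) := rfl
          rw [e3]
          linarith
      _ = Real.exp (m * (2 * δ * t * ‖w‖ * ‖x‖) ^ 2) *
            ∑ s, μ s * Real.exp (t * (w (AA P δ s y)).re) := by
          rw [Finset.mul_sum]
          exact Finset.sum_congr rfl fun s _ => by ring
      _ ≤ Real.exp (m * (2 * δ * t * ‖w‖ * ‖x‖) ^ 2) *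
            Real.exp (t * (w (BB P μ δ y)).re + (2 * δ * t * ‖w‖ * ‖y‖) ^ 2) :=
          mul_le_mul_of_nonneg_left (one_step hP hμ h1 h0 t w y) (Real.exp_nonneg _)
      _ ≤ _ := by
          rw [← Real.exp_add, hB]
          refine Real.exp_le_exp.2 ?_
          have e1 := hsq _ _ _ _ (norm_nonneg w) le_rfl (norm_nonneg y) hyx
          push_cast
          linarith

lemma tail {P : ι → F →L[ℂ] F} {μ : ι → ℝ} (hP : ∀ s, ‖P s‖ ≤ 1) (hμ : ∀ s, 0 ≤ μ s)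
    (h1 : ∑ s, μ s = 1) {δ : ℝ} (h0 : 0 ≤ δ) (hδ : δ ≤ 1) {t : ℝ} (ht : 0 ≤ t) (θ : ℝ) (x : F)
    (m : ℕ) (w : F →L[ℂ] ℂ) [∀ w' : F →L[ℂ] ℂ,
      Decidable (θ < (w' x).re - (w (((BB P μ δ) ^ m) x)).re)] :
    (KK P μ δ)^[m] (fun w' => if θ < (w' x).re - (w (((BB P μ δ) ^ m) x)).re then 1 else 0) w ≤
      Real.exp (-(t * θ) + m * (2 * δ * t * ‖w‖ * ‖x‖) ^ 2) := by
  refine (KKm_mono P δ hμ m _
    (fun w' => Real.exp (-(t * (θ + (w (((BB P μ δ) ^ m) x)).re))) *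
      Real.exp (t * (w' x).re)) (fun w' => ?_) w).trans ?_
  · split_ifs with h
    · rw [← Real.exp_add]
      refine Real.one_le_exp ?_
      nlinarith
    · positivity
  rw [KKm_mul]
  calc _ ≤ Real.exp (-(t * (θ + (w (((BB P μ δ) ^ m) x)).re))) *
        Real.exp (t * (w (((BB P μ δ) ^ m) x)).re + m * (2 * δ * t * ‖w‖ * ‖x‖) ^ 2) :=
        mul_le_mul_of_nonneg_left (exp_moment hP hμ h1 h0 hδ t x m w) (Real.exp_nonneg _)
    _ = _ := by
        rw [← Real.exp_add]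
        congr 1
        ring

end Mk

end Pool.Agent.H94.BKAZ

namespace Pool.Agent.H94

open BKAZ

open Classical in
/-- **AZ.** Concentration of one block of random contractions. -/
theorem bk_az : S_AZ := by
  intro F _ _ _ ι _ P μ hP hμ h1 T η hT hη
  have : CompleteSpace F := FiniteDimensional.complete ℂ F
  obtain ⟨n, ⟨v⟩⟩ : ∃ n : ℕ, Nonempty (Module.Basis (Fin n) ℂ F) :=
    ⟨_, ⟨Module.finBasis ℂ F⟩⟩
  obtain ⟨C1, hC1, hv⟩ := v.exists_opNorm_le (F := ℂ)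
  set η' := η / (4 * C1) with hη'
  have hη'0 : 0 < η' := by positivity
  set X : Fin n × Fin 4 → F := fun q => (Complex.I ^ (q.2 : ℕ)) • v q.1 with hX
  have hXn : ∀ q, ‖X q‖ = ‖v q.1‖ := by
    intro q
    simp only [hX]
    rw [norm_smul, norm_pow, Complex.norm_I, one_pow, one_mul]
  set S := ∑ i, ‖v i‖ ^ 2 + 1 with hS
  have hS0 : 0 < S := by
    have : 0 ≤ ∑ i, ‖v i‖ ^ 2 := Finset.sum_nonneg fun i _ => sq_nonneg _
    linarith
  have hXS : ∀ q, ‖X q‖ ^ 2 ≤ S := by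
    intro q
    rw [hXn]
    have : ‖v q.1‖ ^ 2 ≤ ∑ i, ‖v i‖ ^ 2 :=
      Finset.single_le_sum (f := fun i => ‖v i‖ ^ 2) (fun i _ => sq_nonneg _)
        (Finset.mem_univ q.1)
    linarith
  set a := η' / (8 * T * S) with ha
  have ha0 : 0 < a := by positivity
  -- convergence of the mean
  have hY : ∀ δ : ℝ, 0 ≤ δ → δ ≤ 1 → ∀ x : F →L[ℂ] F,
      ‖(1 + (δ : ℂ) • (UU P μ - 1)) * x‖ ≤ ‖x‖ := by
    intro δ h0 hδ x
    refine ContinuousLinearMap.opNorm_le_bound _ (norm_nonneg _) fun z => ?_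
    exact (BB_le hP hμ h1 h0 hδ (x z)).trans (x.le_opNorm z)
  obtain ⟨δ0, hδ0, hδ01, hlim⟩ := pow_lim (UU P μ - 1) hY hT (half_pos hη)
  refine ⟨4 * n + 1, a * η' / 2, δ0, by positivity, by positivity, hδ0, ?_⟩
  intro δ hδ hδlt w
  have hδ1 : δ ≤ 1 := (hδlt.trans_le hδ01).le
  set m := ⌊T / δ⌋₊ with hm
  have hm1 : (m : ℝ) * δ ≤ T := by
    have := Nat.floor_le (a := T / δ) (by positivity)
    rwa [le_div_iff₀ hδ] at this
  have hG : GG (UU P μ) T = NormedSpace.exp ((T : ℂ) • (UU P μ - 1)) := by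
    unfold GG
    congr 1
    rw [neg_smul, ← smul_neg, neg_sub]
  have hBG : ‖(BB P μ δ) ^ m - GG (UU P μ) T‖ ≤ η / 2 := by
    rw [hG]
    exact hlim δ hδ hδlt
  rcases eq_or_ne w 0 with hw | hw
  · subst hw
    rw [KKm_zero P δ h1]
    simp only [ContinuousLinearMap.zero_comp, norm_zero, mul_zero, sub_self, lt_irrefl, if_false]
    positivity
  have hw0 : 0 < ‖w‖ := norm_pos_iff.2 hw
  -- pointwise bound
  have hpt : ∀ w' : F →L[ℂ] ℂ,
      (if η * ‖w‖ < ‖w' - w.comp (GG (UU P μ) T)‖ then (1 : ℝ) else 0) ≤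
      ∑ q, (if η' * ‖w‖ < (w' (X q)).re - (w (((BB P μ δ) ^ m) (X q))).re then (1 : ℝ)
        else 0) := by
    intro w'
    have hnn : ∀ q ∈ (univ : Finset (Fin n × Fin 4)), (0 : ℝ) ≤
        (if η' * ‖w‖ < (w' (X q)).re - (w (((BB P μ δ) ^ m) (X q))).re then (1 : ℝ) else 0) := by
      intro q _
      split_ifs <;> norm_num
    by_cases hq : ∃ q, η' * ‖w‖ < (w' (X q)).re - (w (((BB P μ δ) ^ m) (X q))).re
    · obtain ⟨q, hq⟩ := hq
      have e1 := Finset.single_le_sum hnn (Finset.mem_univ q)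
      rw [if_pos hq] at e1
      refine le_trans ?_ e1
      split_ifs <;> norm_num
    · push Not at hq
      have hu : ‖w' - w.comp ((BB P μ δ) ^ m)‖ ≤ C1 * (2 * (η' * ‖w‖)) := by
        refine hv (by positivity) fun i => ?_
        set c := (w' - w.comp ((BB P μ δ) ^ m)) (v i) with hc
        have key : ∀ k : Fin 4, (Complex.I ^ (k : ℕ) * c).re ≤ η' * ‖w‖ := by
          intro k
          have e1 := hq (i, k)
          have e2 : (w' (X (i, k))).re - (w (((BB P μ δ) ^ m) (X (i, k)))).re =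
              (Complex.I ^ (k : ℕ) * c).re := by
            rw [← Complex.sub_re]
            congr 1
            simp only [hX, hc, map_smul, smul_eq_mul]
            rw [← mul_sub]
            rfl
          rwa [e2] at e1
        have k0 := key 0
        have k1 := key 1
        have k2 := key 2
        have k3 := key 3
        have i2 : Complex.I ^ 2 = -1 := Complex.I_sq
        have i3 : Complex.I ^ 3 = -Complex.I := by rw [pow_succ, i2]; ring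
        have f0 : ((0 : Fin 4) : ℕ) = 0 := rfl
        have f1 : ((1 : Fin 4) : ℕ) = 1 := rfl
        have f2 : ((2 : Fin 4) : ℕ) = 2 := rfl
        have f3 : ((3 : Fin 4) : ℕ) = 3 := rfl
        rw [f0, pow_zero, one_mul] at k0
        rw [f1, pow_one, Complex.I_mul_re] at k1
        rw [f2, i2, neg_one_mul, Complex.neg_re] at k2
        rw [f3, i3, neg_mul, Complex.neg_re, Complex.I_mul_re] at k3
        have g1 : |c.re| ≤ η' * ‖w‖ := abs_le.2 ⟨by linarith, k0⟩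
        have g2 : |c.im| ≤ η' * ‖w‖ := abs_le.2 ⟨by linarith, by linarith⟩
        have g3 := Complex.norm_le_abs_re_add_abs_im c
        linarith
      have hu2 : C1 * (2 * (η' * ‖w‖)) = η / 2 * ‖w‖ := by
        rw [hη']
        field_simp
        ring
      have hd : ‖w.comp ((BB P μ δ) ^ m) - w.comp (GG (UU P μ) T)‖ ≤ η / 2 * ‖w‖ := by
        rw [← ContinuousLinearMap.comp_sub]
        calc _ ≤ ‖w‖ * ‖(BB P μ δ) ^ m - GG (UU P μ) T‖ :=
              ContinuousLinearMap.opNorm_comp_le _ _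
          _ ≤ ‖w‖ * (η / 2) := mul_le_mul_of_nonneg_left hBG (norm_nonneg _)
          _ = η / 2 * ‖w‖ := mul_comm _ _
      have hall : ‖w' - w.comp (GG (UU P μ) T)‖ ≤ η * ‖w‖ := by
        calc ‖w' - w.comp (GG (UU P μ) T)‖ =
              ‖(w' - w.comp ((BB P μ δ) ^ m)) +
                (w.comp ((BB P μ δ) ^ m) - w.comp (GG (UU P μ) T))‖ := by
              congr 1
              abel
          _ ≤ _ := norm_add_le _ _
          _ ≤ η / 2 * ‖w‖ + η / 2 * ‖w‖ := add_le_add (hu.trans hu2.le) hd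
          _ = η * ‖w‖ := by ring
      rw [if_neg (not_lt.2 hall)]
      exact Finset.sum_nonneg hnn
  refine (KKm_mono P δ hμ m _ _ hpt w).trans ?_
  rw [KKm_sum P μ δ univ m
    (fun q w' => if η' * ‖w‖ < (w' (X q)).re - (w (((BB P μ δ) ^ m) (X q))).re then (1 : ℝ)
        else 0) w]
  have hterm : ∀ q ∈ (univ : Finset (Fin n × Fin 4)), (KK P μ δ)^[m]
      (fun w' => if η' * ‖w‖ < (w' (X q)).re - (w (((BB P μ δ) ^ m) (X q))).re then (1 : ℝ)
        else 0) w ≤ Real.exp (-(a * η' / 2) / δ) := by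
    intro q _
    have e1 := tail hP hμ h1 hδ.le hδ1 (t := a / (δ * ‖w‖)) (by positivity) (η' * ‖w‖) (X q) m w
    refine e1.trans (Real.exp_le_exp.2 ?_)
    have e2 : 2 * δ * (a / (δ * ‖w‖)) * ‖w‖ * ‖X q‖ = 2 * a * ‖X q‖ := by
      field_simp
    have e3 : a / (δ * ‖w‖) * (η' * ‖w‖) = a * η' / δ := by
      field_simp
    rw [e2, e3]
    have e4 : (m : ℝ) ≤ T / δ := by
      rw [le_div_iff₀ hδ]
      exact hm1
    have e5 : (m : ℝ) * (2 * a * ‖X q‖) ^ 2 ≤ T / δ * (4 * a ^ 2 * S) := by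
      refine mul_le_mul e4 ?_ (sq_nonneg _) (by positivity)
      calc (2 * a * ‖X q‖) ^ 2 = 4 * a ^ 2 * ‖X q‖ ^ 2 := by ring
        _ ≤ 4 * a ^ 2 * S := mul_le_mul_of_nonneg_left (hXS q) (by positivity)
    have e6 : T / δ * (4 * a ^ 2 * S) = a * η' / 2 / δ := by
      rw [ha]
      field_simp
      ring
    rw [e6] at e5
    have e7 : -(a * η' / 2) / δ = -(a * η' / δ) + a * η' / 2 / δ := by ring
    rw [e7]
    linarith
  refine (Finset.sum_le_sum hterm).trans ?_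
  rw [Finset.sum_const, Finset.card_univ, Fintype.card_prod, Fintype.card_fin, Fintype.card_fin,
    nsmul_eq_mul]
  refine mul_le_mul_of_nonneg_right ?_ (Real.exp_nonneg _)
  push_cast
  linarith

end Pool.Agent.H94

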